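import Mathlib

/-!
Problem MP_de2f37_co: a sum over the dual of a doubly even binary code.
-/

set_option autoImplicit false
set_option linter.unusedSectionVars false

namespace Pool.Agent.Lib.MPde2f37.Code

open Finset Complex

variable {J V U : Type} [Fintype J] [DecidableEq J] [Fintype V] [DecidableEq V] [Fintype U]
  [DecidableEq U]

/-- `1` at `0` and `c` at `1` -/
noncomputable def e (c : ℂ) (a : ZMod 2) : ℂ := if a = 0 then 1 else c

lemma e_zero (c : ℂ) : e c 0 = 1 := if_pos rfl

lemma e_one (c : ℂ) : e c 1 = c := if_neg one_ne_zero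

lemma zmod2 (a : ZMod 2) : a = 0 ∨ a = 1 := by
  revert a
  decide

/-- the weight -/
def wt (x : J → ZMod 2) : ℕ := (univ.filter fun j => x j ≠ 0).card

lemma prod_e (c : ℂ) (x : J → ZMod 2) : ∏ j, e c (x j) = c ^ wt x := by
  unfold e wt
  rw [Finset.prod_ite]
  simp

lemma e_add (a b : ZMod 2) : e (-1) (a + b) = e (-1) a * e (-1) b := by
  rcases zmod2 a with rfl | rfl <;> rcases zmod2 b with rfl | rfl
  · simp [e_zero]
  · simp [e_zero]
  · simp [e_zero]
  · rw [show (1 + 1 : ZMod 2) = 0 from rfl, e_zero, e_one]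
    norm_num

lemma e_sum {ι : Type} (s : Finset ι) (f : ι → ZMod 2) :
    e (-1) (∑ i ∈ s, f i) = ∏ i ∈ s, e (-1) (f i) := by
  classical
  induction s using Finset.induction_on with
  | empty => simp [e_zero]
  | insert a s ha ih => rw [Finset.sum_insert ha, Finset.prod_insert ha, e_add, ih]

lemma e_I_add (a b : ZMod 2) : e I (a + b) = e I a * e I b * e (-1) (a * b) := by
  rcases zmod2 a with rfl | rfl <;> rcases zmod2 b with rfl | rfl
  · simp [e_zero]
  · simp [e_zero]
  · simp [e_zero]
  · rw [show (1 + 1 : ZMod 2) = 0 from rfl, e_zero, one_mul, e_one, e_one]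
    simp

/-- the dot product -/
def dot (x y : J → ZMod 2) : ZMod 2 := ∑ j, x j * y j

lemma wt_add (x y : J → ZMod 2) :
    I ^ wt (fun j => x j + y j) = I ^ wt x * I ^ wt y * e (-1) (dot x y) := by
  rw [← prod_e, ← prod_e, ← prod_e, dot, e_sum, ← Finset.prod_mul_distrib,
    ← Finset.prod_mul_distrib]
  exact Finset.prod_congr rfl fun j _ => e_I_add _ _

lemma sum_all (f : J → ZMod 2 → ℂ) :
    ∑ x : J → ZMod 2, ∏ j, f j (x j) = ∏ j, (f j 0 + f j 1) := by
  have h := Finset.prod_univ_sum (fun _ : J => (univ : Finset (ZMod 2))) f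
  rw [Fintype.piFinset_univ] at h
  rw [← h]
  refine Finset.prod_congr rfl fun j _ => ?_
  exact Fin.sum_univ_two (f j)

/-- linear combinations -/
def comb (N : V → J → ZMod 2) (s : V → ZMod 2) (j : J) : ZMod 2 := ∑ x, s x * N x j

lemma dot_comb (N : V → J → ZMod 2) (s : V → ZMod 2) (y : J → ZMod 2) :
    dot (comb N s) y = ∑ x, s x * dot (N x) y := by
  unfold dot comb
  simp only [Finset.sum_mul, Finset.mul_sum]
  rw [Finset.sum_comm]
  exact Finset.sum_congr rfl fun x _ => Finset.sum_congr rfl fun j _ => by ring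

lemma dot_comm (x y : J → ZMod 2) : dot x y = dot y x := by
  unfold dot
  exact Finset.sum_congr rfl fun j _ => mul_comm _ _

lemma dot_add (x y z : J → ZMod 2) : dot x (fun j => y j + z j) = dot x y + dot x z := by
  unfold dot
  rw [← Finset.sum_add_distrib]
  exact Finset.sum_congr rfl fun j _ => by ring

/-- the dual code -/
def dual (N : V → J → ZMod 2) : Finset (J → ZMod 2) := univ.filter fun y => ∀ x, dot (N x) y = 0

lemma ind (N : V → J → ZMod 2) (y : J → ZMod 2) :
    ∑ s : V → ZMod 2, e (-1) (dot (comb N s) y) =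
      if y ∈ dual N then (2 : ℂ) ^ Fintype.card V else 0 := by
  have h1 : ∀ s : V → ZMod 2, e (-1) (dot (comb N s) y) =
      ∏ x, e (-1) (s x * dot (N x) y) := by
    intro s
    rw [dot_comb, e_sum]
  rw [Finset.sum_congr rfl fun s _ => h1 s, sum_all fun x a => e (-1) (a * dot (N x) y)]
  simp only [zero_mul, one_mul, e_zero]
  by_cases h : y ∈ dual N
  · rw [if_pos h]
    rw [dual, Finset.mem_filter] at h
    rw [Finset.prod_congr rfl (g := fun _ => (2 : ℂ))]
    · simp
    · intro x _
      rw [h.2 x, e_zero]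
      norm_num
  · rw [if_neg h]
    rw [dual, Finset.mem_filter] at h
    push Not at h
    obtain ⟨x, hx⟩ := h (Finset.mem_univ _)
    refine Finset.prod_eq_zero (Finset.mem_univ x) ?_
    rcases zmod2 (dot (N x) y) with h0 | h0
    · exact absurd h0 hx
    · rw [h0, e_one]
      norm_num

lemma dual_sum (N : V → J → ZMod 2) (c : ℂ) :
    (2 : ℂ) ^ Fintype.card V * ∑ y ∈ dual N, c ^ wt y =
      ∑ s : V → ZMod 2, ∏ j, (1 + e (-1) (comb N s j) * c) := by
  have h1 : ∀ s : V → ZMod 2, ∏ j, (1 + e (-1) (comb N s j) * c) =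
      ∑ y : J → ZMod 2, e (-1) (dot (comb N s) y) * c ^ wt y := by
    intro s
    have h2 : ∀ y : J → ZMod 2, e (-1) (dot (comb N s) y) * c ^ wt y =
        ∏ j, (e (-1) (comb N s j * y j) * e c (y j)) := by
      intro y
      rw [dot, e_sum, ← prod_e, Finset.prod_mul_distrib]
    rw [Finset.sum_congr rfl fun y _ => h2 y, sum_all fun j a => e (-1) (comb N s j * a) * e c a]
    simp [e_zero, e_one]
  rw [Finset.sum_congr rfl fun s _ => h1 s, Finset.sum_comm]
  have h3 : ∀ y : J → ZMod 2, ∑ s : V → ZMod 2, e (-1) (dot (comb N s) y) * c ^ wt y =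
      if y ∈ dual N then (2 : ℂ) ^ Fintype.card V * c ^ wt y else 0 := by
    intro y
    rw [← Finset.sum_mul, ind]
    split_ifs <;> simp
  rw [Finset.sum_congr rfl fun y _ => h3 y, Finset.sum_ite_mem, Finset.univ_inter, Finset.mul_sum]

lemma dual_I (N : V → J → ZMod 2) (h4 : ∀ s, 4 ∣ wt (comb N s)) :
    ∑ y ∈ dual N, I ^ wt y = (1 + I) ^ Fintype.card J := by
  have h := dual_sum N I
  have h1 : ∀ s : V → ZMod 2, ∏ j, (1 + e (-1) (comb N s j) * I) = (1 + I) ^ Fintype.card J := by
    intro s
    have h2 : ∀ a : ZMod 2, 1 + e (-1) a * I = (1 + I) * e (-I) a := by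
      intro a
      rcases zmod2 a with rfl | rfl
      · simp [e_zero]
      · rw [e_one, e_one]
        linear_combination I_sq
    rw [Finset.prod_congr rfl fun j _ => h2 _, Finset.prod_mul_distrib, prod_e]
    obtain ⟨c, hc⟩ := h4 s
    have h5 : (-I) ^ 4 = 1 := by
      rw [neg_pow, I_pow_four]
      norm_num
    rw [hc, pow_mul, h5]
    simp
  rw [Finset.sum_congr rfl fun s _ => h1 s, Finset.sum_const, Finset.card_univ,
    Fintype.card_fun, ZMod.card, nsmul_eq_mul] at h
  push_cast at h
  exact mul_left_cancel₀ (pow_ne_zero _ two_ne_zero) h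

lemma dual_card (N : V → J → ZMod 2) (hN : ∀ s, comb N s = 0 → s = 0) :
    2 ^ Fintype.card V * (dual N).card = 2 ^ Fintype.card J := by
  have h := dual_sum N 1
  have h1 : ∀ s : V → ZMod 2, ∏ j, (1 + e (-1) (comb N s j) * 1) =
      if s = 0 then (2 : ℂ) ^ Fintype.card J else 0 := by
    intro s
    by_cases hs : s = 0
    · subst hs
      rw [if_pos rfl, Finset.prod_congr rfl (g := fun _ => (2 : ℂ))]
      · simp
      · intro j _
        have : comb N 0 j = 0 := by simp [comb]
        rw [this, e_zero]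
        norm_num
    · rw [if_neg hs]
      have h2 : ∃ j, comb N s j ≠ 0 := by
        by_contra hcon
        push Not at hcon
        exact hs (hN s (funext hcon))
      obtain ⟨j, hj⟩ := h2
      refine Finset.prod_eq_zero (Finset.mem_univ j) ?_
      rcases zmod2 (comb N s j) with h0 | h0
      · exact absurd h0 hj
      · rw [h0, e_one]
        norm_num
  rw [Finset.sum_congr rfl fun s _ => h1 s, Finset.sum_ite_eq' univ] at h
  simp only [one_pow, Finset.sum_const, nsmul_eq_mul, mul_one, Finset.mem_univ, if_true] at h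
  exact_mod_cast h

/-- If the doubly even code `C` spanned by the independent rows of `N` and the nondegenerate space `W` spanned
by `P`, orthogonal to `C`, together have the dimension of the dual of `C`, then the sum of `i ^ wt` over the
dual is `2 ^ dim C` times the sum over `W`. -/
theorem gauss (N : V → J → ZMod 2) (P : U → J → ZMod 2) (h4 : ∀ s, 4 ∣ wt (comb N s))
    (hNN : ∀ x y, dot (N x) (N y) = 0) (hN : ∀ s, comb N s = 0 → s = 0)
    (hNP : ∀ x u, dot (N x) (P u) = 0)
    (hP : ∀ t : U → ZMod 2, (∀ u, dot (comb P t) (P u) = 0) → t = 0)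
    (hc : 2 * Fintype.card V + Fintype.card U = Fintype.card J) :
    (2 : ℂ) ^ Fintype.card V * ∑ t : U → ZMod 2, I ^ wt (comb P t) = (1 + I) ^ Fintype.card J := by
  have hNP' : ∀ s t, dot (comb N s) (comb P t) = 0 := by
    intro s t
    rw [dot_comb]
    refine Finset.sum_eq_zero fun x _ => ?_
    rw [dot_comm, dot_comb, Finset.sum_eq_zero, mul_zero]
    intro u _
    rw [dot_comm, hNP, mul_zero]
  set φ : (V → ZMod 2) × (U → ZMod 2) → J → ZMod 2 := fun p j => comb N p.1 j + comb P p.2 j
    with hφ
  have hsub : ∀ (Q : U → J → ZMod 2) (t t' : U → ZMod 2) (j : J),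
      comb Q (t - t') j = comb Q t j - comb Q t' j := by
    intro Q t t' j
    unfold comb
    rw [← Finset.sum_sub_distrib]
    exact Finset.sum_congr rfl fun u _ => by rw [Pi.sub_apply]; ring
  have hsub' : ∀ (Q : V → J → ZMod 2) (t t' : V → ZMod 2) (j : J),
      comb Q (t - t') j = comb Q t j - comb Q t' j := by
    intro Q t t' j
    unfold comb
    rw [← Finset.sum_sub_distrib]
    exact Finset.sum_congr rfl fun u _ => by rw [Pi.sub_apply]; ring
  have hinj : Function.Injective φ := by
    rintro ⟨s, t⟩ ⟨s', t'⟩ h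
    have h1 : ∀ j, comb P (t - t') j = comb N (s' - s) j := by
      intro j
      have h2 := congrFun h j
      simp only [hφ] at h2
      rw [hsub, hsub']
      linear_combination h2
    have h1' : comb P (t - t') = comb N (s' - s) := funext h1
    have ht : t - t' = 0 := by
      refine hP _ fun u => ?_
      rw [h1', dot_comb]
      exact Finset.sum_eq_zero fun x _ => by rw [hNP, mul_zero]
    have hs : s' - s = 0 := by
      refine hN _ ?_
      rw [← h1', ht]
      funext j
      simp [comb]
    rw [sub_eq_zero.mp ht, sub_eq_zero.mp hs]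
  have himg : univ.image φ = dual N := by
    refine Finset.eq_of_subset_of_card_le ?_ ?_
    · intro y hy
      obtain ⟨⟨s, t⟩, _, rfl⟩ := Finset.mem_image.mp hy
      rw [dual, Finset.mem_filter]
      refine ⟨Finset.mem_univ _, fun x => ?_⟩
      have h1 : dot (N x) (comb N s) = 0 := by
        rw [dot_comm, dot_comb]
        exact Finset.sum_eq_zero fun x' _ => by rw [hNN, mul_zero]
      have h2 : dot (N x) (comb P t) = 0 := by
        rw [dot_comm, dot_comb]
        exact Finset.sum_eq_zero fun u _ => by rw [dot_comm, hNP, mul_zero]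
      change dot (N x) (fun j => comb N s j + comb P t j) = 0
      rw [dot_add, h1, h2, add_zero]
    · rw [Finset.card_image_of_injective _ hinj, Finset.card_univ, Fintype.card_prod,
        Fintype.card_fun, Fintype.card_fun, ZMod.card]
      have h1 := dual_card N hN
      rw [← hc] at h1
      have h2 : 2 ^ (2 * Fintype.card V + Fintype.card U) =
          2 ^ Fintype.card V * (2 ^ Fintype.card V * 2 ^ Fintype.card U) := by
        rw [two_mul, pow_add, pow_add]
        ring
      rw [h2] at h1
      exact (Nat.eq_of_mul_eq_mul_left (by positivity) h1).le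
  have h1 := dual_I N h4
  rw [← himg, Finset.sum_image fun a _ b _ h => hinj h] at h1
  have h2 : ∀ p : (V → ZMod 2) × (U → ZMod 2), I ^ wt (φ p) = I ^ wt (comb P p.2) := by
    intro p
    obtain ⟨c, hc⟩ := h4 p.1
    have h3 : I ^ wt (comb N p.1) = 1 := by
      rw [hc, pow_mul, I_pow_four, one_pow]
    rw [hφ]
    change I ^ wt (fun j => comb N p.1 j + comb P p.2 j) = _
    rw [wt_add, h3, hNP', e_zero, one_mul, mul_one]
  rw [Finset.sum_congr rfl fun p _ => h2 p, Fintype.sum_prod_type] at h1
  simp only at h1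
  rw [Finset.sum_const, Finset.card_univ, Fintype.card_fun, ZMod.card, nsmul_eq_mul] at h1
  push_cast at h1
  exact h1

end Pool.Agent.Lib.MPde2f37.Code
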