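import Pool.Agent.Lib.MP_de2f37_co.Reg

/-!
Problem MP_de2f37_co: involutory automorphisms of Steiner systems `S(2, k, k(2k - 1))`, `k` odd.
-/

set_option autoImplicit false

namespace Pool.Agent.Lib.MPde2f37

open Finset

variable {k : ℕ} {V : Type} [Fintype V] [DecidableEq V] {blocks : Finset (Finset V)}

/-- the replication number for `v = k(2k-1)` -/
theorem Steiner.repl_eq (hk : 2 ≤ k) (hV : Fintype.card V = k * (2 * k - 1))
    (hD : Steiner k blocks) (x : V) : (blocks.filter fun B => x ∈ B).card = 2 * k + 1 := by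
  have h1 := hD.repl x
  obtain ⟨m, rfl⟩ : ∃ m, k = m + 2 := ⟨k - 2, by omega⟩
  rw [hV] at h1
  have h2 : m + 2 - 1 = m + 1 := by omega
  have h3 : 2 * (m + 2) - 1 = 2 * m + 3 := by omega
  rw [h2, h3] at h1
  have h4 : (m + 2) * (2 * m + 3) - 1 = (2 * (m + 2) + 1) * (m + 1) := by
    have : (m + 2) * (2 * m + 3) = (2 * (m + 2) + 1) * (m + 1) + 1 := by ring
    omega
  rw [h4] at h1
  exact Nat.eq_of_mul_eq_mul_right (by omega) h1

/-- the number of blocks for `v = k(2k-1)` -/
theorem Steiner.card_blocks (hk : 2 ≤ k) (hV : Fintype.card V = k * (2 * k - 1))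
    (hD : Steiner k blocks) : blocks.card = (2 * k - 1) * (2 * k + 1) := by
  have h1 := hD.count _ (hD.repl_eq hk hV)
  rw [hV] at h1
  refine Nat.eq_of_mul_eq_mul_right (show 0 < k by omega) ?_
  rw [h1]
  ring

namespace Inv

/-- an involution without fixed points on a finite set -/
theorem even_of_invol {α : Type} [DecidableEq α] (s : Finset α) (g : α → α)
    (h1 : ∀ x ∈ s, g x ∈ s) (h2 : ∀ x ∈ s, g (g x) = x) (h3 : ∀ x ∈ s, g x ≠ x)
    (t : α → ℤ) (ht : ∀ x ∈ s, t (g x) = t x) : (2 : ℤ) ∣ ∑ x ∈ s, t x := by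
  have h : ((∑ x ∈ s, t x : ℤ) : ZMod 2) = 0 := by
    push_cast
    refine Finset.sum_involution (fun x _ => g x) ?_ ?_ ?_ ?_
    · intro x hx
      rw [ht x hx]
      exact CharTwo.add_self_eq_zero _
    · intro x hx _
      exact h3 x hx
    · intro x hx
      exact h1 x hx
    · intro x hx
      exact h2 x hx
  have := (ZMod.intCast_zmod_eq_zero_iff_dvd (∑ x ∈ s, t x) 2).mp h
  exact_mod_cast this

variable {σ : Equiv.Perm V} {o : V}

/-- the sign function -/
noncomputable def sg (σ : Equiv.Perm V) (x : V) : ℤ :=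
  if σ x = x then 0 else if Fintype.equivFin V x < Fintype.equivFin V (σ x) then 1 else -1

theorem sg_neg (hσ : ∀ x, σ (σ x) = x) (x : V) : sg σ (σ x) = - sg σ x := by
  unfold sg
  rw [hσ x]
  by_cases h : σ x = x
  · rw [if_pos h, if_pos h.symm, neg_zero]
  · rw [if_neg h, if_neg (fun h' => h h'.symm)]
    have hne : Fintype.equivFin V x ≠ Fintype.equivFin V (σ x) := fun h' =>
      h ((Fintype.equivFin V).injective h').symm
    rcases lt_or_gt_of_ne hne with h1 | h1
    · rw [if_pos h1, if_neg (not_lt.mpr h1.le)]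
    · rw [if_pos h1, if_neg (not_lt.mpr h1.le)]
      ring

theorem sg_sq (x : V) : sg σ x ^ 2 = if σ x = x then 0 else 1 := by
  unfold sg
  split_ifs <;> norm_num

theorem sg_odd (x : V) (h : σ x ≠ x) : ∃ c : ℤ, sg σ x = 2 * c + 1 := by
  unfold sg
  rw [if_neg h]
  split_ifs
  · exact ⟨0, by norm_num⟩
  · exact ⟨-1, by norm_num⟩

/-- the block sum -/
noncomputable def bs (σ : Equiv.Perm V) (B : Finset V) : ℤ := ∑ x ∈ B, sg σ x

theorem bs_image (hσ : ∀ x, σ (σ x) = x) (B : Finset V) : bs σ (B.image σ) = - bs σ B := by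
  unfold bs
  rw [Finset.sum_image fun x _ y _ h => σ.injective h, ← Finset.sum_neg_distrib]
  exact Finset.sum_congr rfl fun x _ => sg_neg hσ x

theorem image_image (hσ : ∀ x, σ (σ x) = x) (B : Finset V) : (B.image σ).image σ = B := by
  rw [Finset.image_image]
  have : (σ : V → V) ∘ σ = id := by
    funext x
    exact hσ x
  rw [this, Finset.image_id]

/-- an invariant block of odd size contains a fixed point -/
theorem fixed_mem (hσ : ∀ x, σ (σ x) = x) (B : Finset V) (hB : B.image σ = B)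
    (hodd : B.card % 2 = 1) : ∃ x ∈ B, σ x = x := by
  by_contra hcon
  push Not at hcon
  have h := even_of_invol B σ (fun x hx => by rw [← hB]; exact Finset.mem_image_of_mem _ hx)
    (fun x _ => hσ x) hcon (fun _ => 1) (fun _ _ => rfl)
  rw [Finset.sum_const, nsmul_eq_mul, mul_one] at h
  omega

theorem main (hk : k % 4 = 3) (hV : Fintype.card V = k * (2 * k - 1)) (hD : Steiner k blocks)
    (hσ : ∀ x, σ (σ x) = x) (haut : ∀ B ∈ blocks, B.image σ ∈ blocks)
    (hfix : ∀ x, σ x = x ↔ x = o) : False := by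
  have hk2 : 2 ≤ k := by omega
  have hr := hD.repl_eq hk2 hV
  have hb := hD.card_blocks hk2 hV
  have ho : σ o = o := (hfix o).mpr rfl
  -- blocks through `o`
  have hinv : ∀ B ∈ blocks, o ∈ B → B.image σ = B := by
    intro B hB hoB
    obtain ⟨x, hx, hxo⟩ : ∃ x ∈ B, x ≠ o := by
      have h1 : 1 < B.card := by rw [hD.card B hB]; omega
      exact Finset.exists_mem_ne h1 o
    have hne : x ≠ σ x := fun h => hxo ((hfix x).mp h.symm)
    obtain ⟨C, ⟨hC, hxC, hsC⟩, hu⟩ := hD.pair x (σ x) hne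
    have hCi : C.image σ = C := by
      apply hu
      refine ⟨haut C hC, ?_, ?_⟩
      · exact Finset.mem_image.mpr ⟨σ x, hsC, hσ x⟩
      · exact Finset.mem_image_of_mem _ hxC
    obtain ⟨y, hy, hyf⟩ := fixed_mem hσ C hCi (by rw [hD.card C hC]; omega)
    rw [(hfix y).mp hyf] at hy
    have hBC : B = C := (hD.pair x o hxo).unique ⟨hB, hx, hoB⟩ ⟨hC, hxC, hy⟩
    rw [hBC]
    exact hCi
  have hz : ∀ B ∈ blocks, o ∈ B → bs σ B = 0 := by
    intro B hB hoB
    have h1 := bs_image hσ B
    rw [hinv B hB hoB] at h1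
    linarith
  -- the other blocks
  set W : Finset (Finset V) := blocks.filter fun B => o ∉ B with hW
  have hWc : W.card = 2 * (Fintype.card V - 1) := by
    have h1 : (blocks.filter fun B => o ∈ B).card + W.card = blocks.card :=
      Finset.card_filter_add_card_filter_not _
    rw [hr o, hb] at h1
    rw [hV]
    obtain ⟨m, rfl⟩ : ∃ m, k = m + 2 := ⟨k - 2, by omega⟩
    have e1 : 2 * (m + 2) - 1 = 2 * m + 3 := by omega
    rw [e1] at h1 ⊢
    have e2 : (2 * m + 3) * (2 * (m + 2) + 1) = 2 * (m + 2) + 1 + 2 * ((m + 2) * (2 * m + 3) - 1) := by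
      have : (m + 2) * (2 * m + 3) - 1 = 2 * m ^ 2 + 7 * m + 5 := by
        have : (m + 2) * (2 * m + 3) = 2 * m ^ 2 + 7 * m + 5 + 1 := by ring
        omega
      rw [this]
      ring
    rw [e2] at h1
    omega
  have hodd : ∀ B ∈ W, ∃ t : ℤ, bs σ B ^ 2 = 1 + 8 * t := by
    intro B hB
    rw [hW, Finset.mem_filter] at hB
    have h1 : ∃ c : ℤ, bs σ B = 2 * c + 1 := by
      have h2 : ∀ x ∈ B, ∃ c : ℤ, sg σ x = 2 * c + 1 := fun x hx =>
        sg_odd x fun h => hB.2 (by rw [← (hfix x).mp h]; exact hx)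
      have h3 : ∀ s : Finset V, (∀ x ∈ s, ∃ c : ℤ, sg σ x = 2 * c + 1) →
          ∃ c : ℤ, ∑ x ∈ s, sg σ x = 2 * c + s.card := by
        intro s
        induction s using Finset.induction_on with
        | empty => intro _; exact ⟨0, by simp⟩
        | insert a s ha ih =>
          intro h
          obtain ⟨c, hc⟩ := ih fun x hx => h x (Finset.mem_insert_of_mem hx)
          obtain ⟨c', hc'⟩ := h a (Finset.mem_insert_self a s)
          refine ⟨c + c', ?_⟩
          rw [Finset.sum_insert ha, Finset.card_insert_of_notMem ha, hc, hc']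
          push_cast
          ring
      obtain ⟨c, hc⟩ := h3 B h2
      rw [hD.card B hB.1] at hc
      refine ⟨c + (k / 2 : ℕ), ?_⟩
      unfold bs
      rw [hc]
      have : (k : ℤ) = 2 * (k / 2 : ℕ) + 1 := by omega
      rw [this]
      ring
    obtain ⟨c, hc⟩ := h1
    rcases Int.even_or_odd' c with ⟨d, hd | hd⟩
    · refine ⟨d * (2 * d + 1), ?_⟩
      rw [hc, hd]
      ring
    · refine ⟨(2 * d + 1) * (d + 1), ?_⟩
      rw [hc, hd]
      ring
  choose! t ht using hodd
  have hWi : ∀ B ∈ W, B.image σ ∈ W := by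
    intro B hB
    rw [hW, Finset.mem_filter] at hB ⊢
    refine ⟨haut B hB.1, fun h => hB.2 ?_⟩
    obtain ⟨x, hx, hxo⟩ := Finset.mem_image.mp h
    have : x = o := by
      have h1 := congrArg σ hxo
      rw [hσ x, ho] at h1
      exact h1
    rw [← this]
    exact hx
  have hte : (2 : ℤ) ∣ ∑ B ∈ W, t B := by
    refine even_of_invol W (fun B => B.image σ) hWi (fun B _ => image_image hσ B) ?_ t ?_
    · intro B hB h
      have hB' := Finset.mem_filter.mp (hW ▸ hB)
      obtain ⟨x, hx, hxf⟩ := fixed_mem hσ B h (by rw [hD.card B hB'.1]; omega)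
      rw [(hfix x).mp hxf] at hx
      exact hB'.2 hx
    · intro B hB
      have h1 := ht B hB
      have h2 := ht _ (hWi B hB)
      rw [bs_image hσ B, neg_sq, h1] at h2
      linarith
  obtain ⟨e, he⟩ := hte
  -- the sum of the squares
  have hsum0 : ∑ x, sg σ x = 0 := by
    have h1 : ∑ x, sg σ x = ∑ x, sg σ (σ x) := (Equiv.sum_comp σ (sg σ)).symm
    rw [Finset.sum_congr rfl fun x _ => sg_neg hσ x, Finset.sum_neg_distrib] at h1
    linarith
  have hsum2 : ∑ x, sg σ x ^ 2 = Fintype.card V - 1 := by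
    rw [Finset.sum_congr rfl fun x _ => sg_sq x]
    have h1 : ∀ x : V, (if σ x = x then (0 : ℤ) else 1) = 1 - if x = o then 1 else 0 := by
      intro x
      by_cases h : x = o
      · rw [if_pos h, if_pos ((hfix x).mpr h)]
        norm_num
      · rw [if_neg h, if_neg fun h' => h ((hfix x).mp h')]
        norm_num
    rw [Finset.sum_congr rfl fun x _ => h1 x, Finset.sum_sub_distrib, Finset.sum_ite_eq']
    simp
  have htot := hD.square _ hr (sg σ)
  rw [hsum0, hsum2] at htot
  have hsplit : ∑ B ∈ blocks, (∑ x ∈ B, sg σ x) ^ 2 = W.card + 16 * e := by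
    have h1 : ∑ B ∈ blocks, (∑ x ∈ B, sg σ x) ^ 2 = ∑ B ∈ W, bs σ B ^ 2 := by
      rw [hW, Finset.sum_filter]
      refine Finset.sum_congr rfl fun B hB => ?_
      by_cases h : o ∈ B
      · rw [if_neg (not_not.mpr h)]
        have := hz B hB h
        unfold bs at this
        rw [this]
        norm_num
      · rw [if_pos h]
        rfl
    rw [h1, Finset.sum_congr rfl ht, Finset.sum_add_distrib, ← Finset.mul_sum, he]
    simp
    ring
  rw [hsplit, hWc] at htot
  have hv1 : 1 ≤ Fintype.card V := by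
    rw [hV]
    have : 1 ≤ 2 * k - 1 := by omega
    nlinarith
  obtain ⟨j, hj⟩ : ∃ j : ℕ, k = 4 * j + 3 := ⟨k / 4, by omega⟩
  have hvz : (Fintype.card V : ℤ) = (4 * j + 3) * (8 * j + 5) := by
    rw [hV, hj]
    have : 2 * (4 * j + 3) - 1 = 8 * j + 5 := by omega
    rw [this]
    push_cast
    ring
  rw [Nat.cast_mul, Nat.cast_sub hv1, hvz, hj] at htot
  push_cast at htot
  have h8 : (4 : ℤ) * ((2 * j + 1) ^ 2 * (8 * j + 7)) = 8 * e := by nlinarith
  have h9 : ((2 * (j : ℤ) + 1) ^ 2 * (8 * j + 7)) = 2 * e := by linarith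
  have h10 : ((2 * (j : ℤ) + 1) ^ 2 * (8 * j + 7)) =
      2 * ((2 * (j : ℤ) ^ 2 + 2 * j) * (8 * j + 7) + 4 * j + 3) + 1 := by ring
  omega

/-- the number of fixed points -/
theorem three_le (hk : k % 4 = 3) (hV : Fintype.card V = k * (2 * k - 1)) (hD : Steiner k blocks)
    (hσ : ∀ x, σ (σ x) = x) (haut : ∀ B ∈ blocks, B.image σ ∈ blocks) :
    3 ≤ (Finset.univ.filter fun x => σ x = x).card := by
  set F := Finset.univ.filter fun x => σ x = x with hF
  have h1 : (2 : ℤ) ∣ ∑ x ∈ Finset.univ.filter fun x => ¬ σ x = x, (1 : ℤ) := by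
    refine even_of_invol _ σ ?_ (fun x _ => hσ x) ?_ (fun _ => 1) (fun _ _ => rfl)
    · intro x hx
      rw [Finset.mem_filter] at hx ⊢
      refine ⟨Finset.mem_univ _, fun h => hx.2 ?_⟩
      rw [hσ x] at h
      exact h.symm
    · intro x hx
      exact (Finset.mem_filter.mp hx).2
  rw [Finset.sum_const, nsmul_eq_mul, mul_one] at h1
  have h2 : F.card + (Finset.univ.filter fun x => ¬ σ x = x).card =
      (Finset.univ : Finset V).card := Finset.card_filter_add_card_filter_not _
  rw [Finset.card_univ, hV] at h2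
  obtain ⟨j, hj⟩ : ∃ j : ℕ, k = 4 * j + 3 := ⟨k / 4, by omega⟩
  have h3 : k * (2 * k - 1) = 2 * (16 * j ^ 2 + 22 * j + 7) + 1 := by
    have : 2 * k - 1 = 8 * j + 5 := by omega
    rw [this, hj]
    ring
  rw [h3] at h2
  have h4 : F.card ≠ 1 := by
    intro h
    obtain ⟨o, ho⟩ := Finset.card_eq_one.mp h
    refine main hk hV hD hσ haut (o := o) fun x => ?_
    have h5 : x ∈ F ↔ x = o := by rw [ho, Finset.mem_singleton]
    rw [hF, Finset.mem_filter] at h5
    simpa using h5
  omega

end Inv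

end Pool.Agent.Lib.MPde2f37
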