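import Pool.Agent.Lib.MP_de2f37_co.Code
import Pool.Agent.Lib.MP_de2f37_co.Inv

/-!
Problem MP_de2f37_co: the binary code of a resolvable Steiner system `S(2, k, k(2k - 1))`, `k = 3 mod 4`.
-/

set_option autoImplicit false
set_option linter.unusedSectionVars false

namespace Pool.Agent.Lib.MPde2f37.Rank

open Finset Code Complex

variable {k : ℕ} {V : Type} [Fintype V] [DecidableEq V] {blocks : Finset (Finset V)}

/-- the extended rows of the incidence matrix -/
def row (blocks : Finset (Finset V)) (x : V) (j : Option {B // B ∈ blocks}) : ZMod 2 :=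
  match j with
  | none => 1
  | some B => if x ∈ B.1 then 1 else 0

/-- the extended indicators of the parallel classes -/
def prow {ι : Type} [DecidableEq ι] (blocks : Finset (Finset V)) (f : Finset V → ι) (c₀ : ι)
    (u : {c : ι // c ≠ c₀}) (j : Option {B // B ∈ blocks}) : ZMod 2 :=
  match j with
  | none => 1
  | some B => if f B.1 = u.1 then 1 else 0

lemma wt_int {J : Type} [Fintype J] [DecidableEq J] (x : J → ZMod 2) :
    (wt x : ℤ) = ∑ j, if x j = 0 then 0 else 1 := by
  unfold wt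
  rw [Finset.card_filter]
  push_cast
  refine Finset.sum_congr rfl fun j _ => ?_
  by_cases h : x j = 0 <;> simp [h]

lemma sq_mod (a : ℤ) : ∃ c : ℤ, a ^ 2 = 4 * c + if (a : ZMod 2) = 0 then 0 else 1 := by
  rcases Int.even_or_odd' a with ⟨b, hb | hb⟩
  · refine ⟨b ^ 2, ?_⟩
    have h : (a : ZMod 2) = 0 := (ZMod.intCast_zmod_eq_zero_iff_dvd a 2).mpr ⟨b, by push_cast; exact hb⟩
    rw [if_pos h, hb]
    ring
  · refine ⟨b ^ 2 + b, ?_⟩
    have h : (a : ZMod 2) ≠ 0 := by
      intro h
      have h1 := (ZMod.intCast_zmod_eq_zero_iff_dvd a 2).mp h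
      push_cast at h1
      omega
    rw [if_neg h, hb]
    ring

/-- the lift of a function to the integers -/
def lift (s : V → ZMod 2) (x : V) : ℤ := if s x = 0 then 0 else 1

lemma lift_cast (s : V → ZMod 2) (x : V) : ((lift s x : ℤ) : ZMod 2) = s x := by
  unfold lift
  rcases zmod2 (s x) with h | h <;> simp [h]

lemma comb_none (s : V → ZMod 2) :
    comb (row blocks) s none = ((∑ x, lift s x : ℤ) : ZMod 2) := by
  unfold comb
  push_cast
  exact Finset.sum_congr rfl fun x _ => by rw [lift_cast]; simp [row]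

lemma comb_some (s : V → ZMod 2) (B : {B // B ∈ blocks}) :
    comb (row blocks) s (some B) = ((∑ x ∈ B.1, lift s x : ℤ) : ZMod 2) := by
  unfold comb
  push_cast
  rw [Finset.sum_congr rfl fun x _ => lift_cast s x]
  simp only [row, mul_ite, mul_one, mul_zero]
  rw [Finset.sum_ite_mem, Finset.univ_inter]

theorem four_dvd (hk2 : 2 ≤ k) (hk : k % 2 = 1) (hV : Fintype.card V = k * (2 * k - 1))
    (hD : Steiner k blocks) (s : V → ZMod 2) : 4 ∣ wt (comb (row blocks) s) := by
  have h1 : (wt (comb (row blocks) s) : ℤ) =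
      (if ((∑ x, lift s x : ℤ) : ZMod 2) = 0 then 0 else 1) +
        ∑ B ∈ blocks, if ((∑ x ∈ B, lift s x : ℤ) : ZMod 2) = 0 then 0 else 1 := by
    rw [wt_int, Fintype.sum_option, comb_none]
    congr 1
    rw [← Finset.sum_coe_sort blocks]
    exact Finset.sum_congr rfl fun B _ => by rw [comb_some]
  choose c hc using fun B : Finset V => sq_mod (∑ x ∈ B, lift s x)
  obtain ⟨d, hd⟩ := sq_mod (∑ x, lift s x)
  have h2 := hD.square _ (hD.repl_eq hk2 hV) (lift s)
  rw [Finset.sum_congr rfl fun B _ => hc B, Finset.sum_add_distrib, ← Finset.mul_sum] at h2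
  have h3 : ∑ x, lift s x ^ 2 = ∑ x, lift s x := by
    refine Finset.sum_congr rfl fun x _ => ?_
    unfold lift
    split_ifs <;> norm_num
  rw [h3] at h2
  set n := ∑ x, lift s x with hn
  set W := ∑ B ∈ blocks, if ((∑ x ∈ B, lift s x : ℤ) : ZMod 2) = 0 then (0 : ℤ) else 1 with hW
  set C := ∑ B ∈ blocks, c B
  have h4 : Even (n * (n + k)) := by
    have hk' : Odd (k : ℤ) := by
      refine ⟨(k / 2 : ℕ), ?_⟩
      omega
    rcases Int.even_or_odd n with h | h
    · exact h.mul_right _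
    · exact (h.add_odd hk').mul_left _
  obtain ⟨t, ht⟩ := h4
  have h5 : (4 : ℤ) ∣ wt (comb (row blocks) s) := by
    refine ⟨t - C - d, ?_⟩
    rw [h1]
    have h6 : ((2 * k + 1 : ℕ) : ℤ) - 1 = 2 * k := by push_cast; ring
    rw [h6] at h2
    have h7 : (2 : ℤ) * k * n + n ^ 2 + n ^ 2 = 4 * t := by linear_combination 2 * ht
    linarith
  exact_mod_cast h5

theorem dot_row (hk2 : 2 ≤ k) (hV : Fintype.card V = k * (2 * k - 1))
    (hD : Steiner k blocks) (x y : V) : dot (row blocks x) (row blocks y) = 0 := by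
  have h1 : dot (row blocks x) (row blocks y) =
      1 + ((blocks.filter fun B => x ∈ B ∧ y ∈ B).card : ZMod 2) := by
    unfold dot
    rw [Fintype.sum_option]
    congr 1
    rw [Finset.card_filter]
    push_cast
    rw [← Finset.sum_coe_sort blocks]
    refine Finset.sum_congr rfl fun B _ => ?_
    unfold row
    by_cases hx : x ∈ B.1 <;> by_cases hy : y ∈ B.1 <;> simp [hx, hy]
  rw [h1]
  by_cases hxy : x = y
  · subst hxy
    simp only [and_self]
    rw [hD.repl_eq hk2 hV x]
    have : (1 : ZMod 2) + ((2 * k + 1 : ℕ) : ZMod 2) = ((2 * (k + 1) : ℕ) : ZMod 2) := by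
      push_cast
      ring
    rw [this]
    push_cast
    rw [show (2 : ZMod 2) = 0 from rfl, zero_mul]
  · rw [hD.pair_card hxy]
    rfl

variable {ι : Type} [Fintype ι] [DecidableEq ι] {f : Finset V → ι} {c₀ : ι}

theorem dot_row_prow (hres : ∀ (c : ι) (x : V), ∃! B, B ∈ blocks ∧ f B = c ∧ x ∈ B)
    (x : V) (u : {c : ι // c ≠ c₀}) : dot (row blocks x) (prow blocks f c₀ u) = 0 := by
  have h1 : dot (row blocks x) (prow blocks f c₀ u) =
      1 + ((blocks.filter fun B => f B = u.1 ∧ x ∈ B).card : ZMod 2) := by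
    unfold dot
    rw [Fintype.sum_option]
    congr 1
    rw [Finset.card_filter]
    push_cast
    rw [← Finset.sum_coe_sort blocks]
    refine Finset.sum_congr rfl fun B _ => ?_
    unfold row prow
    by_cases hx : x ∈ B.1 <;> by_cases hy : f B.1 = u.1 <;> simp [hx, hy]
  have h2 : (blocks.filter fun B => f B = u.1 ∧ x ∈ B).card = 1 := by
    obtain ⟨B, hB, hu⟩ := hres u.1 x
    rw [Finset.card_eq_one]
    refine ⟨B, ?_⟩
    ext C
    rw [Finset.mem_filter, Finset.mem_singleton]
    constructor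
    · intro hC
      exact hu C hC
    · rintro rfl
      exact hB
  rw [h1, h2]
  rfl

/-- the size of a parallel class -/
theorem class_card (hk2 : 2 ≤ k) (hV : Fintype.card V = k * (2 * k - 1)) (hD : Steiner k blocks)
    (hres : ∀ (c : ι) (x : V), ∃! B, B ∈ blocks ∧ f B = c ∧ x ∈ B) (c : ι) :
    (blocks.filter fun B => f B = c).card = 2 * k - 1 := by
  have h1 : ∑ B ∈ blocks.filter (fun B => f B = c),
      ((Finset.univ : Finset V).filter fun y => y ∈ B).card =
      ∑ y ∈ (Finset.univ : Finset V),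
        ((blocks.filter fun B => f B = c).filter fun B => y ∈ B).card :=
    Finset.sum_card_bipartiteAbove_eq_sum_card_bipartiteBelow (fun B y => y ∈ B)
  have h2 : ∀ B ∈ blocks.filter (fun B => f B = c),
      ((Finset.univ : Finset V).filter fun y => y ∈ B).card = k := by
    intro B hB
    rw [← hD.card B (Finset.mem_filter.mp hB).1]
    congr 1
    ext y
    simp
  have h3 : ∀ y ∈ (Finset.univ : Finset V),
      ((blocks.filter fun B => f B = c).filter fun B => y ∈ B).card = 1 := by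
    intro y _
    rw [Finset.filter_filter]
    obtain ⟨B, hB, hu⟩ := hres c y
    rw [Finset.card_eq_one]
    refine ⟨B, ?_⟩
    ext C
    rw [Finset.mem_filter, Finset.mem_singleton]
    constructor
    · intro hC
      exact hu C hC
    · rintro rfl
      exact hB
  rw [Finset.sum_congr rfl h2, Finset.sum_congr rfl h3, Finset.sum_const, Finset.sum_const,
    Finset.card_univ, hV, smul_eq_mul, smul_eq_mul, mul_one, mul_comm] at h1
  exact Nat.eq_of_mul_eq_mul_left (by omega) h1

/-- the number of parallel classes -/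
theorem card_iota (hk2 : 2 ≤ k) (hV : Fintype.card V = k * (2 * k - 1)) (hD : Steiner k blocks)
    (hres : ∀ (c : ι) (x : V), ∃! B, B ∈ blocks ∧ f B = c ∧ x ∈ B) :
    Fintype.card ι = 2 * k + 1 := by
  have hne : Nonempty V := by
    rw [← Fintype.card_pos_iff, hV]
    have : 0 < 2 * k - 1 := by omega
    positivity
  obtain ⟨x⟩ := hne
  rw [← hD.repl_eq hk2 hV x]
  rw [Finset.card_eq_sum_card_fiberwise (f := f) (t := univ) (fun _ _ => Finset.mem_univ _)]
  rw [← Finset.card_univ, Finset.card_eq_sum_ones]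
  refine Finset.sum_congr rfl fun c _ => ?_
  symm
  obtain ⟨B, hB, hu⟩ := hres c x
  rw [Finset.card_eq_one]
  refine ⟨B, ?_⟩
  ext C
  rw [Finset.mem_filter, Finset.mem_filter, Finset.mem_singleton]
  constructor
  · rintro ⟨⟨h1, h2⟩, h3⟩
    exact hu C ⟨h1, h3, h2⟩
  · rintro rfl
    exact ⟨⟨hB.1, hB.2.2⟩, hB.2.1⟩

theorem dot_prow (hk2 : 2 ≤ k) (hV : Fintype.card V = k * (2 * k - 1)) (hD : Steiner k blocks)
    (hres : ∀ (c : ι) (x : V), ∃! B, B ∈ blocks ∧ f B = c ∧ x ∈ B) (u w : {c : ι // c ≠ c₀}) :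
    dot (prow blocks f c₀ u) (prow blocks f c₀ w) = 1 - if u = w then 1 else 0 := by
  have h1 : dot (prow blocks f c₀ u) (prow blocks f c₀ w) =
      1 + ((blocks.filter fun B => f B = u.1 ∧ f B = w.1).card : ZMod 2) := by
    unfold dot
    rw [Fintype.sum_option]
    congr 1
    rw [Finset.card_filter]
    push_cast
    rw [← Finset.sum_coe_sort blocks]
    refine Finset.sum_congr rfl fun B _ => ?_
    unfold prow
    by_cases hx : f B.1 = u.1 <;> by_cases hy : f B.1 = w.1 <;> simp [hx, hy]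
  rw [h1]
  by_cases h : u = w
  · subst h
    simp only [and_self, if_true]
    rw [class_card hk2 hV hD hres]
    have h2 : (1 : ZMod 2) + ((2 * k - 1 : ℕ) : ZMod 2) = ((2 * k : ℕ) : ZMod 2) := by
      rw [show 2 * k = (2 * k - 1) + 1 by omega]
      push_cast
      ring
    rw [h2]
    push_cast
    rw [show (2 : ZMod 2) = 0 from rfl, zero_mul, sub_self]
  · have h2 : (blocks.filter fun B => f B = u.1 ∧ f B = w.1) = ∅ := by
      rw [Finset.filter_eq_empty_iff]
      rintro B _ ⟨h3, h4⟩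
      exact h (Subtype.ext (h3.symm.trans h4))
    rw [h2, if_neg h]
    simp

theorem nondeg (hk2 : 2 ≤ k) (hV : Fintype.card V = k * (2 * k - 1)) (hD : Steiner k blocks)
    (hres : ∀ (c : ι) (x : V), ∃! B, B ∈ blocks ∧ f B = c ∧ x ∈ B)
    (t : {c : ι // c ≠ c₀} → ZMod 2)
    (ht : ∀ u, dot (comb (prow blocks f c₀) t) (prow blocks f c₀ u) = 0) : t = 0 := by
  have h1 : ∀ u, t u = ∑ w, t w := by
    intro u
    have h2 := ht u
    rw [dot_comb] at h2
    have h3 : ∀ w : {c : ι // c ≠ c₀}, t w * dot (prow blocks f c₀ w) (prow blocks f c₀ u) =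
        t w - if w = u then t w else 0 := by
      intro w
      rw [dot_prow hk2 hV hD hres]
      split_ifs <;> ring
    rw [Finset.sum_congr rfl fun w _ => h3 w, Finset.sum_sub_distrib, Finset.sum_ite_eq'] at h2
    simp only [Finset.mem_univ, if_true] at h2
    exact (sub_eq_zero.mp h2).symm
  have h4 : ∑ w, t w = 0 := by
    have h5 : ∑ w, t w = ∑ _w : {c : ι // c ≠ c₀}, ∑ w, t w :=
      Finset.sum_congr rfl fun u _ => h1 u
    rw [h5, Finset.sum_const, Finset.card_univ, nsmul_eq_mul]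
    have h6 : Fintype.card {c : ι // c ≠ c₀} = 2 * k := by
      rw [Fintype.card_subtype_compl, Fintype.card_subtype_eq, card_iota hk2 hV hD hres]
      omega
    rw [h6]
    push_cast
    rw [show (2 : ZMod 2) = 0 from rfl, zero_mul, zero_mul]
  funext u
  rw [h1 u, h4]
  rfl

lemma prod_one (t : {c : ι // c ≠ c₀} → ZMod 2) (B : {B // B ∈ blocks}) :
    e I (comb (prow blocks f c₀) t (some B)) = ∏ u, if f B.1 = u.1 then e I (t u) else 1 := by
  unfold comb prow
  simp only [mul_ite, mul_one, mul_zero]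
  by_cases h : f B.1 = c₀
  · have h1 : ∀ u : {c : ι // c ≠ c₀}, f B.1 ≠ u.1 := fun u h' => u.2 (h'.symm.trans h)
    rw [Finset.sum_eq_zero fun u _ => if_neg (h1 u), Finset.prod_eq_one fun u _ => if_neg (h1 u),
      e_zero]
  · rw [Finset.sum_eq_single (⟨f B.1, h⟩ : {c : ι // c ≠ c₀}),
      Finset.prod_eq_single (⟨f B.1, h⟩ : {c : ι // c ≠ c₀})]
    · rw [if_pos rfl, if_pos rfl]
    · intro u _ hu
      exact if_neg fun h' => hu (Subtype.ext h'.symm)
    · intro h'
      exact absurd (Finset.mem_univ _) h'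
    · intro u _ hu
      exact if_neg fun h' => hu (Subtype.ext h'.symm)
    · intro h'
      exact absurd (Finset.mem_univ _) h'

theorem wt_prow (hk : k % 4 = 3) (hV : Fintype.card V = k * (2 * k - 1)) (hD : Steiner k blocks)
    (hres : ∀ (c : ι) (x : V), ∃! B, B ∈ blocks ∧ f B = c ∧ x ∈ B)
    (t : {c : ι // c ≠ c₀} → ZMod 2) :
    I ^ wt (comb (prow blocks f c₀) t) = e I (∑ u, t u) * ∏ u, e I (t u) := by
  rw [← prod_e, Fintype.prod_option]
  congr 1
  · unfold comb prow
    simp
  · rw [Finset.prod_congr rfl fun B _ => prod_one t B,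
      Finset.prod_coe_sort blocks fun B => ∏ u : {c : ι // c ≠ c₀}, if f B = u.1 then e I (t u) else 1,
      Finset.prod_comm]
    refine Finset.prod_congr rfl fun u _ => ?_
    rw [Finset.prod_ite, Finset.prod_const, Finset.prod_const_one, mul_one,
      class_card (by omega) hV hD hres]
    obtain ⟨m, hm⟩ : ∃ m, 2 * k - 1 = 4 * m + 1 := ⟨(2 * k - 1) / 4, by omega⟩
    rw [hm]
    rcases zmod2 (t u) with h | h
    · rw [h, e_zero, one_pow]
    · rw [h, e_one, pow_succ, pow_mul, I_pow_four, one_pow, one_mul]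

lemma e_I_eq (a : ZMod 2) : e I a = (1 + I) / 2 + (1 - I) / 2 * e (-1) a := by
  rcases zmod2 a with rfl | rfl
  · rw [e_zero, e_zero]
    ring
  · rw [e_one, e_one]
    ring

lemma sum_W {U : Type} [Fintype U] [DecidableEq U] :
    ∑ t : U → ZMod 2, e I (∑ u, t u) * ∏ u, e I (t u) =
      ((1 + I) ^ (Fintype.card U + 1) + (1 - I) ^ (Fintype.card U + 1)) / 2 := by
  have h1 : ∀ t : U → ZMod 2, e I (∑ u, t u) * ∏ u, e I (t u) =
      (1 + I) / 2 * ∏ u, e I (t u) + (1 - I) / 2 * ∏ u, (e (-1) (t u) * e I (t u)) := by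
    intro t
    rw [e_I_eq, e_sum, Finset.prod_mul_distrib]
    ring
  rw [Finset.sum_congr rfl fun t _ => h1 t, Finset.sum_add_distrib, ← Finset.mul_sum,
    ← Finset.mul_sum, sum_all fun _ a => e I a, sum_all fun _ a => e (-1) a * e I a]
  simp only [e_zero, e_one, one_mul, Finset.prod_const, Finset.card_univ]
  rw [pow_succ, pow_succ, show (1 : ℂ) + -1 * I = 1 - I by ring]
  ring

/-- the binary rank of a resolvable design is not full -/
theorem rank_lt (hk : k % 4 = 3) (hV : Fintype.card V = k * (2 * k - 1)) (hD : Steiner k blocks)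
    (hres : ∀ (c : ι) (x : V), ∃! B, B ∈ blocks ∧ f B = c ∧ x ∈ B) :
    ∃ S : Finset V, S.Nonempty ∧ ∀ B ∈ blocks, Even (B ∩ S).card := by
  by_contra hcon
  push Not at hcon
  have hk2 : 2 ≤ k := by omega
  have hι := card_iota hk2 hV hD hres
  have hne : Nonempty ι := by
    rw [← Fintype.card_pos_iff, hι]
    omega
  obtain ⟨c₀⟩ := hne
  have hU : Fintype.card {c : ι // c ≠ c₀} = 2 * k := by
    rw [Fintype.card_subtype_compl, Fintype.card_subtype_eq, hι]
    omega
  obtain ⟨j, hj⟩ : ∃ j, k = 4 * j + 3 := ⟨k / 4, by omega⟩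
  have hJ : Fintype.card (Option {B // B ∈ blocks}) = 4 * k ^ 2 := by
    rw [Fintype.card_option, Fintype.card_coe, hD.card_blocks hk2 hV]
    obtain ⟨m, rfl⟩ : ∃ m, k = m + 1 := ⟨k - 1, by omega⟩
    have : 2 * (m + 1) - 1 = 2 * m + 1 := by omega
    rw [this]
    ring
  have hind : ∀ s, comb (row blocks) s = 0 → s = 0 := by
    intro s hs
    by_contra hs0
    obtain ⟨x, hx⟩ : ∃ x, s x ≠ 0 := by
      by_contra h
      push Not at h
      exact hs0 (funext h)
    obtain ⟨B, hB, hodd⟩ := hcon (univ.filter fun x => s x ≠ 0) ⟨x, by simp [hx]⟩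
    have h1 := congrFun hs (some ⟨B, hB⟩)
    rw [comb_some] at h1
    have h2 : ∑ x ∈ B, lift s x = ((B ∩ univ.filter fun x => s x ≠ 0).card : ℤ) := by
      rw [← Finset.filter_mem_eq_inter, Finset.card_filter]
      push_cast
      refine Finset.sum_congr rfl fun x _ => ?_
      unfold lift
      by_cases h : s x = 0 <;> simp [h]
    rw [h2, Pi.zero_apply, Int.cast_natCast, ZMod.natCast_eq_zero_iff] at h1
    exact hodd (even_iff_two_dvd.mpr h1)
  have h := gauss (row blocks) (prow blocks f c₀) (four_dvd hk2 (by omega) hV hD)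
    (dot_row hk2 hV hD) hind (dot_row_prow hres) (nondeg hk2 hV hD hres) (by
      rw [hJ, hU, hV]
      obtain ⟨m, rfl⟩ : ∃ m, k = m + 1 := ⟨k - 1, by omega⟩
      have : 2 * (m + 1) - 1 = 2 * m + 1 := by omega
      rw [this]
      ring)
  rw [Finset.sum_congr rfl fun t _ => wt_prow hk hV hD hres t, sum_W, hU, hJ] at h
  have e2 : (1 + I) ^ 2 = 2 * I := by linear_combination I_sq
  have e2' : (1 - I) ^ 2 = -(2 * I) := by linear_combination I_sq
  have e4 : (1 + I) ^ 4 = -4 := by
    calc (1 + I) ^ 4 = ((1 + I) ^ 2) ^ 2 := by ring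
      _ = -4 := by rw [e2]; linear_combination 4 * I_sq
  have e4' : (1 - I) ^ 4 = -4 := by
    calc (1 - I) ^ 4 = ((1 - I) ^ 2) ^ 2 := by ring
      _ = -4 := by rw [e2']; linear_combination 4 * I_sq
  have e7 : (1 + I) ^ (2 * k + 1) = 16 ^ j * (8 * (1 - I)) := by
    have : 2 * k + 1 = 4 * (2 * j) + 4 + 2 + 1 := by omega
    rw [this, pow_add, pow_add, pow_add, pow_mul, e4, e2, pow_mul]
    norm_num
    linear_combination (-8 * 16 ^ j) * I_sq
  have e7' : (1 - I) ^ (2 * k + 1) = 16 ^ j * (8 * (1 + I)) := by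
    have : 2 * k + 1 = 4 * (2 * j) + 4 + 2 + 1 := by omega
    rw [this, pow_add, pow_add, pow_add, pow_mul, e4', e2', pow_mul]
    norm_num
    linear_combination (-8 * 16 ^ j) * I_sq
  have eR : (1 + I) ^ (4 * k ^ 2) = -(4 : ℂ) ^ (k ^ 2) := by
    rw [pow_mul, e4, Odd.neg_pow]
    have : Odd k := ⟨k / 2, by omega⟩
    exact this.pow
  rw [e7, e7', eR] at h
  have h8 : (2 : ℂ) ^ Fintype.card V * (16 ^ j * 8) + 4 ^ (k ^ 2) = 0 := by
    linear_combination h
  have h9 : 2 ^ Fintype.card V * (16 ^ j * 8) + 4 ^ (k ^ 2) = 0 := by exact_mod_cast h8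
  have h10 : 0 < 4 ^ (k ^ 2) := by positivity
  omega

end Pool.Agent.Lib.MPde2f37.Rank
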