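import Mathlib

/-!
Problem MP_de2f37_co: automorphism groups of Steiner systems `S(2, k, k(2k - 1))` which are regular on the
points or on the points with one exception.
-/

set_option autoImplicit false

namespace Pool.Agent.Lib.MPde2f37

open Finset Pointwise

/-- `blocks` is the set of blocks of a Steiner system with block size `k`. -/
structure Steiner (k : ℕ) {V : Type} [DecidableEq V] (blocks : Finset (Finset V)) : Prop where
  card : ∀ B ∈ blocks, B.card = k
  pair : ∀ x y : V, x ≠ y → ∃! B, B ∈ blocks ∧ x ∈ B ∧ y ∈ B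

variable {k : ℕ} {V : Type} [Fintype V] [DecidableEq V] {blocks : Finset (Finset V)}

theorem Steiner.pair_card (hD : Steiner k blocks) {x y : V} (h : x ≠ y) :
    (blocks.filter fun B => x ∈ B ∧ y ∈ B).card = 1 := by
  obtain ⟨B, hB, hu⟩ := hD.pair x y h
  rw [Finset.card_eq_one]
  refine ⟨B, ?_⟩
  ext C
  rw [Finset.mem_filter, Finset.mem_singleton]
  constructor
  · intro hC
    exact hu C hC
  · rintro rfl
    exact hB

/-- the replication number -/
theorem Steiner.repl (hD : Steiner k blocks) (x : V) :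
    (blocks.filter fun B => x ∈ B).card * (k - 1) = Fintype.card V - 1 := by
  have h1 : ∑ B ∈ blocks.filter (fun B => x ∈ B), ((Finset.univ.erase x).filter fun y => y ∈ B).card =
      ∑ y ∈ Finset.univ.erase x, ((blocks.filter fun B => x ∈ B).filter fun B => y ∈ B).card :=
    Finset.sum_card_bipartiteAbove_eq_sum_card_bipartiteBelow (fun B y => y ∈ B)
  have h2 : ∀ B ∈ blocks.filter (fun B => x ∈ B),
      ((Finset.univ.erase x).filter fun y => y ∈ B).card = k - 1 := by
    intro B hB
    rw [Finset.mem_filter] at hB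
    have h3 : (Finset.univ.erase x).filter (fun y => y ∈ B) = B.erase x := by
      ext y
      simp
    rw [h3, Finset.card_erase_of_mem hB.2, hD.card B hB.1]
  have h4 : ∀ y ∈ Finset.univ.erase x,
      ((blocks.filter fun B => x ∈ B).filter fun B => y ∈ B).card = 1 := by
    intro y hy
    rw [Finset.filter_filter]
    exact hD.pair_card (Finset.ne_of_mem_erase hy).symm
  rw [Finset.sum_congr rfl h2, Finset.sum_congr rfl h4] at h1
  simpa using h1

/-- the number of blocks -/
theorem Steiner.count (hD : Steiner k blocks) (r : ℕ)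
    (hr : ∀ x : V, (blocks.filter fun B => x ∈ B).card = r) :
    blocks.card * k = Fintype.card V * r := by
  have h1 : ∑ B ∈ blocks, ((Finset.univ : Finset V).filter fun y => y ∈ B).card =
      ∑ y ∈ (Finset.univ : Finset V), (blocks.filter fun B => y ∈ B).card :=
    Finset.sum_card_bipartiteAbove_eq_sum_card_bipartiteBelow (fun B y => y ∈ B)
  have h2 : ∀ B ∈ blocks, ((Finset.univ : Finset V).filter fun y => y ∈ B).card = k := by
    intro B hB
    rw [← hD.card B hB]
    congr 1
    ext y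
    simp
  rw [Finset.sum_congr rfl h2, Finset.sum_congr rfl fun y _ => hr y] at h1
  simpa using h1

/-- the sum of the squares of the block sums -/
theorem Steiner.square (hD : Steiner k blocks) (r : ℕ)
    (hr : ∀ x : V, (blocks.filter fun B => x ∈ B).card = r) (f : V → ℤ) :
    ∑ B ∈ blocks, (∑ x ∈ B, f x) ^ 2 = ((r : ℤ) - 1) * ∑ x, f x ^ 2 + (∑ x, f x) ^ 2 := by
  have h1 : ∀ B ∈ blocks, (∑ x ∈ B, f x) ^ 2 =
      ∑ x, ∑ y, if x ∈ B ∧ y ∈ B then f x * f y else 0 := by
    intro B _
    have e : ∀ x, (∑ y, if x ∈ B ∧ y ∈ B then f x * f y else 0) =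
        if x ∈ B then f x * ∑ y ∈ B, f y else 0 := by
      intro x
      by_cases hx : x ∈ B
      · simp only [hx, true_and, if_true]
        rw [Finset.mul_sum, ← Finset.sum_filter]
        congr 1
        ext y
        simp
      · simp [hx]
    simp only [e]
    rw [← Finset.sum_filter, pow_two, Finset.sum_mul]
    congr 1
    ext y
    simp
  rw [Finset.sum_congr rfl h1, Finset.sum_comm]
  have h2 : ∀ x : V, (∑ B ∈ blocks, ∑ y, if x ∈ B ∧ y ∈ B then f x * f y else 0) =
      ((r : ℤ) - 1) * f x ^ 2 + f x * ∑ y, f y := by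
    intro x
    rw [Finset.sum_comm]
    have h3 : ∀ y : V, (∑ B ∈ blocks, if x ∈ B ∧ y ∈ B then f x * f y else 0) =
        f x * f y + if y = x then ((r : ℤ) - 1) * f x ^ 2 else 0 := by
      intro y
      rw [← Finset.sum_filter, Finset.sum_const, nsmul_eq_mul]
      by_cases hxy : y = x
      · subst hxy
        simp only [and_self, if_true]
        rw [hr]
        ring
      · rw [hD.pair_card (Ne.symm hxy), if_neg hxy]
        simp
    rw [Finset.sum_congr rfl fun y _ => h3 y, Finset.sum_add_distrib, ← Finset.mul_sum,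
      Finset.sum_ite_eq' Finset.univ x]
    simp only [Finset.mem_univ, if_true]
    ring
  rw [Finset.sum_congr rfl fun x _ => h2 x, Finset.sum_add_distrib, ← Finset.mul_sum,
    ← Finset.sum_mul]
  ring

variable {G : Type} [Group G] [MulAction G V]

section

variable (N : Subgroup G)

open Classical in
/-- the character of order two -/
noncomputable def sgn (g : G) : ℤ := if g ∈ N then 1 else -1

open Classical in
/-- its lift to the points -/
noncomputable def ff (o x : V) : ℤ := if h : ∃ g : G, g • o = x then sgn N h.choose else 0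

theorem sgn_mul (hN : N.index = 2) (a b : G) : sgn N (a * b) = sgn N a * sgn N b := by
  unfold sgn
  have h := Subgroup.mul_mem_iff_of_index_two hN (a := a) (b := b)
  by_cases ha : a ∈ N <;> by_cases hb : b ∈ N <;> simp [ha, hb, h]

theorem sgn_sq (g : G) : sgn N g ^ 2 = 1 := by
  unfold sgn
  split_ifs <;> norm_num

theorem ff_orb {o : V} (hfree : Function.Injective fun g : G => g • o) (g : G) :
    ff N o (g • o) = sgn N g := by
  unfold ff
  have h : ∃ g' : G, g' • o = g • o := ⟨g, rfl⟩
  rw [dif_pos h]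
  congr 1
  exact hfree h.choose_spec

theorem ff_out {o x : V} (h : ¬ ∃ g : G, g • o = x) : ff N o x = 0 := by
  unfold ff
  rw [dif_neg h]

theorem ff_smul (hN : N.index = 2) {o : V} (hfree : Function.Injective fun g : G => g • o)
    (g : G) (x : V) : ff N o (g • x) = sgn N g * ff N o x := by
  by_cases h : ∃ g' : G, g' • o = x
  · obtain ⟨g', rfl⟩ := h
    rw [← mul_smul, ff_orb N hfree, ff_orb N hfree, sgn_mul N hN]
  · have h2 : ¬ ∃ g' : G, g' • o = g • x := by
      rintro ⟨g', hg'⟩
      exact h ⟨g⁻¹ * g', by rw [mul_smul, hg', inv_smul_smul]⟩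
    rw [ff_out N h, ff_out N h2, mul_zero]

/-- the block sum -/
noncomputable def SS (o : V) (B : Finset V) : ℤ := ∑ x ∈ B, ff N o x

theorem SS_smul (hN : N.index = 2) {o : V} (hfree : Function.Injective fun g : G => g • o)
    (g : G) (B : Finset V) : SS N o (g • B) = sgn N g * SS N o B := by
  unfold SS
  rw [Finset.smul_finset_def, Finset.sum_image fun x _ y _ h => MulAction.injective g h,
    Finset.mul_sum]
  exact Finset.sum_congr rfl fun x _ => ff_smul N hN hfree g x

end

/-- the main count -/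
theorem main (hk : 2 ≤ k) (hV : Fintype.card V = k * (2 * k - 1)) (hD : Steiner k blocks)
    (haut : ∀ g : G, ∀ B ∈ blocks, g • B ∈ blocks) (o : V)
    (hfree : Function.Injective fun g : G => g • o)
    (hmiss : {x : V | ∀ g : G, g • o ≠ x}.Subsingleton)
    (hnorm : ∀ s : G, (orderOf s).Prime → ∀ h : G, h * s * h⁻¹ ∈ Subgroup.zpowers s)
    (N : Subgroup G) (hN : N.index = 2) : ∃ a b : ℕ, 2 * k = a ^ 2 + b ^ 2 := by
  classical
  have hfin : Finite G := Finite.of_injective _ hfree
  have : Fintype G := Fintype.ofFinite G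
  set n := Nat.card G with hn
  have hn0 : 0 < n := Nat.card_pos
  -- the orbit
  set O : Finset V := Finset.univ.image fun g : G => g • o with hO
  have hOcard : O.card = n := by
    rw [hO, Finset.card_image_of_injective _ hfree, Finset.card_univ, hn, Nat.card_eq_fintype_card]
  have hOmem : ∀ x, x ∈ O ↔ ∃ g : G, g • o = x := by
    intro x
    simp [hO]
  have hcompl : (Finset.univ \ O).card ≤ 1 := by
    rw [Finset.card_le_one]
    intro x hx y hy
    refine hmiss (fun g hg => ?_) fun g hg => ?_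
    · exact (Finset.mem_sdiff.1 hx).2 ((hOmem x).2 ⟨g, hg⟩)
    · exact (Finset.mem_sdiff.1 hy).2 ((hOmem y).2 ⟨g, hg⟩)
  have hcv : n + (Finset.univ \ O).card = k * (2 * k - 1) := by
    rw [← hV, ← Finset.card_univ, ← hOcard, add_comm, Finset.card_sdiff_add_card_eq_card]
    exact Finset.subset_univ _
  -- numbers
  obtain ⟨m, rfl⟩ : ∃ m, k = m + 2 := ⟨k - 2, by omega⟩
  have hkv : (m + 2) * (2 * (m + 2) - 1) = 2 * m ^ 2 + 7 * m + 6 := by
    have : 2 * (m + 2) - 1 = 2 * m + 3 := by omega
    rw [this]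
    ring
  have hr : ∀ x : V, (blocks.filter fun B => x ∈ B).card = 2 * m + 5 := by
    intro x
    have h1 := hD.repl x
    rw [hV, hkv] at h1
    have h2 : m + 2 - 1 = m + 1 := by omega
    rw [h2] at h1
    have h3 : 2 * m ^ 2 + 7 * m + 6 - 1 = (2 * m + 5) * (m + 1) := by
      have : (2 * m + 5) * (m + 1) = 2 * m ^ 2 + 7 * m + 5 := by ring
      omega
    rw [h3] at h1
    exact Nat.eq_of_mul_eq_mul_right (by omega) h1
  have hb : blocks.card = (2 * m + 3) * (2 * m + 5) := by
    have h1 := hD.count _ hr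
    rw [hV] at h1
    have : 2 * (m + 2) - 1 = 2 * m + 3 := by omega
    rw [this] at h1
    refine Nat.eq_of_mul_eq_mul_right (show 0 < m + 2 by omega) ?_
    rw [h1]
    ring
  have hdvd : 2 ∣ n := by
    rw [← hN]
    exact Subgroup.index_dvd_card N
  have hn2 : n = 2 * m ^ 2 + 7 * m + 6 ∨ (n = 2 * m ^ 2 + 7 * m + 5) := by
    rw [hkv] at hcv
    omega
  have h3n : blocks.card < 3 * n := by
    rw [hb]
    have e : (2 * m + 3) * (2 * m + 5) = 4 * m ^ 2 + 16 * m + 15 := by ring
    rw [e]
    rcases hn2 with h | h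
    · rw [h]
      nlinarith
    · rw [h]
      rcases Nat.eq_zero_or_pos m with h0 | h0
      · subst h0
        rw [h] at hdvd
        norm_num at hdvd
      · nlinarith
  -- the character
  obtain ⟨g₀, hg₀⟩ : ∃ g₀ : G, g₀ ∉ N := by
    by_contra hcon
    push Not at hcon
    have : N = ⊤ := by
      ext g
      simp [hcon g]
    rw [this] at hN
    simp at hN
  have hsg : sgn N g₀ = -1 := by
    unfold sgn
    rw [if_neg hg₀]
  have hsum0 : ∑ x, ff N o x = 0 := by
    have h1 : ∑ x, ff N o x = ∑ x, ff N o (g₀ • x) :=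
      (Equiv.sum_comp (MulAction.toPerm g₀) (ff N o)).symm
    have h2 : ∑ x, ff N o (g₀ • x) = -∑ x, ff N o x := by
      rw [← Finset.sum_neg_distrib]
      refine Finset.sum_congr rfl fun x _ => ?_
      rw [ff_smul N hN hfree, hsg]
      ring
    linarith
  have hsum2 : ∑ x, ff N o x ^ 2 = n := by
    have h1 : ∑ x, ff N o x ^ 2 = ∑ x ∈ O, ff N o x ^ 2 := by
      symm
      refine Finset.sum_subset (Finset.subset_univ _) fun x _ hx => ?_
      rw [ff_out N (fun h => hx ((hOmem x).2 h))]
      norm_num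
    rw [h1, ← hOcard, Finset.sum_congr rfl (g := fun _ => (1 : ℤ))]
    · simp
    · intro x hx
      obtain ⟨g, rfl⟩ := (hOmem x).1 hx
      rw [ff_orb N hfree, sgn_sq]
  have htot : ∑ B ∈ blocks, SS N o B ^ 2 = 2 * ((m + 2 : ℕ) : ℤ) * n := by
    have h1 := hD.square _ hr (ff N o)
    rw [hsum0, hsum2] at h1
    unfold SS
    rw [h1]
    push_cast
    ring
  -- blocks with nontrivial stabiliser
  have hstab : ∀ B ∈ blocks, MulAction.stabilizer G B ≠ ⊥ → SS N o B = 0 := by
    intro B hB hK
    set K := MulAction.stabilizer G B with hKdef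
    have hKm : ∀ {g : G}, g ∈ K → ∀ x ∈ B, g • x ∈ B := by
      intro g hg x hx
      have h1 : g • B = B := hg
      rw [← h1]
      exact Finset.smul_mem_smul_finset hx
    obtain ⟨s, hsK, hsp⟩ : ∃ s ∈ K, (orderOf s).Prime := by
      have hnt : Nat.card K ≠ 1 := by
        intro h
        exact hK (Subgroup.card_eq_one.1 h)
      obtain ⟨p, hp, hpd⟩ := Nat.exists_prime_and_dvd hnt
      have : Fact p.Prime := ⟨hp⟩
      obtain ⟨s, hs⟩ := exists_prime_orderOf_dvd_card' p hpd
      refine ⟨s, s.2, ?_⟩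
      rw [Subgroup.orderOf_coe, hs]
      exact hp
    have hs1 : s ≠ 1 := by
      rintro rfl
      rw [orderOf_one] at hsp
      exact Nat.not_prime_one hsp
    have hconj : ∀ h : G, h * s * h⁻¹ ∈ K := fun h =>
      (Subgroup.zpowers_le.2 hsK) (hnorm s hsp h)
    -- the points of the block in the orbit
    have htrans : ∀ g₁ g₂ : G, g₁ • o ∈ B → g₂ • o ∈ B → g₂ * g₁⁻¹ ∈ K := by
      intro g₁ g₂ h1 h2
      set h := g₂ * g₁⁻¹ with hh
      have e1 : h • (g₁ • o) = g₂ • o := by
        rw [← mul_smul, hh]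
        simp
      have e2 : h • (s • g₁ • o) = (h * s * h⁻¹) • (g₂ • o) := by
        rw [← e1, ← mul_smul, ← mul_smul, ← mul_smul, ← mul_smul]
        congr 1
        group
      have hne : g₂ • o ≠ (h * s * h⁻¹) • (g₂ • o) := by
        intro hcon
        have h3 : g₂ • o = (h * s * h⁻¹ * g₂) • o := by rw [mul_smul]; exact hcon
        have h4 := hfree h3
        apply hs1
        have h5 : h * s * h⁻¹ = 1 := by
          have : 1 * g₂ = h * s * h⁻¹ * g₂ := by rw [one_mul]; exact h4
          exact (mul_right_cancel this).symm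
        have h6 : s = h⁻¹ * (h * s * h⁻¹) * h := by group
        rw [h6, h5]
        group
      have hu := (hD.pair _ _ hne).unique
        (y₁ := h • B) (y₂ := B)
        ⟨haut h B hB, by rw [← e1]; exact Finset.smul_mem_smul_finset h1,
          by rw [← e2]; exact Finset.smul_mem_smul_finset (hKm hsK _ h1)⟩
        ⟨hB, h2, hKm (hconj h) _ h2⟩
      exact hu
    -- number of these points
    have hBO : (B \ O).card ≤ 1 :=
      (Finset.card_le_card (Finset.sdiff_subset_sdiff (Finset.subset_univ B) le_rfl)).trans hcompl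
    have hBcard := hD.card B hB
    have hint : (B ∩ O).card + (B \ O).card = m + 2 := by
      rw [← hBcard]
      exact Finset.card_inter_add_card_sdiff B O
    obtain ⟨x₀, hx₀⟩ : (B ∩ O).Nonempty := by
      rw [← Finset.card_pos]
      omega
    rw [Finset.mem_inter] at hx₀
    obtain ⟨g₁, hg₁⟩ := (hOmem x₀).1 hx₀.2
    have hx₀B : g₁ • o ∈ B := by rw [hg₁]; exact hx₀.1
    have hKcard : Nat.card K = (B ∩ O).card := by
      have h1 : B ∩ O = (Finset.univ : Finset K).image fun h : K => (h : G) • (g₁ • o) := by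
        ext y
        constructor
        · intro hy
          obtain ⟨hy1, hy2⟩ := Finset.mem_inter.1 hy
          obtain ⟨g₂, rfl⟩ := (hOmem y).1 hy2
          refine Finset.mem_image.2 ⟨⟨g₂ * g₁⁻¹, htrans g₁ g₂ hx₀B hy1⟩, Finset.mem_univ _, ?_⟩
          change (g₂ * g₁⁻¹) • (g₁ • o) = g₂ • o
          rw [← mul_smul]
          simp
        · intro hy
          obtain ⟨h, _, rfl⟩ := Finset.mem_image.1 hy
          exact Finset.mem_inter.2 ⟨hKm h.2 _ hx₀B, (hOmem _).2 ⟨h * g₁, by rw [mul_smul]⟩⟩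
      rw [h1, Finset.card_image_of_injective, Finset.card_univ, Nat.card_eq_fintype_card]
      intro h h' hhh
      have h2 : ((h : G) * g₁) • o = ((h' : G) * g₁) • o := by
        rw [mul_smul, mul_smul]
        exact hhh
      have h3 := hfree h2
      exact Subtype.ext (mul_right_cancel h3)
    -- the character is nontrivial on the stabiliser
    have hKN : ¬ K ≤ N := by
      intro hle
      have h1 : 2 * Nat.card K ∣ n := by
        have h2 : K.relIndex N * N.index = K.index := Subgroup.relIndex_mul_index hle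
        have h3 : Nat.card K * K.index = n := Subgroup.card_mul_index K
        rw [← h3, ← h2, hN]
        exact ⟨K.relIndex N, by ring⟩
      rw [hKcard] at h1
      have hout : (B \ O).card ≤ (Finset.univ \ O).card :=
        Finset.card_le_card (Finset.sdiff_subset_sdiff (Finset.subset_univ B) le_rfl)
      rw [hkv] at hcv
      rcases hn2 with h | h
      · have hc : (B ∩ O).card = m + 2 := by omega
        rw [hc, h] at h1
        obtain ⟨c, hc⟩ := h1
        have h4 : (m + 2) * (2 * m + 3) = (m + 2) * (2 * c) := by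
          have : (m + 2) * (2 * m + 3) = 2 * m ^ 2 + 7 * m + 6 := by ring
          rw [this, hc]
          ring
        have h5 := Nat.eq_of_mul_eq_mul_left (by omega) h4
        omega
      · rcases (by omega : (B ∩ O).card = m + 2 ∨ (B ∩ O).card = m + 1) with hc | hc
        · rw [hc, h] at h1
          have h4 : m + 2 ∣ 2 * m ^ 2 + 7 * m + 5 := (Dvd.intro_left 2 rfl).trans h1
          have h5 : m + 2 ∣ 2 * m ^ 2 + 7 * m + 6 := ⟨2 * m + 3, by ring⟩
          have h6 : m + 2 ∣ 1 := by
            have := (Nat.dvd_sub h5 h4)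
            have e : 2 * m ^ 2 + 7 * m + 6 - (2 * m ^ 2 + 7 * m + 5) = 1 := by omega
            rwa [e] at this
          have := Nat.le_of_dvd one_pos h6
          omega
        · rw [hc, h] at h1
          obtain ⟨c, hc⟩ := h1
          have h4 : (m + 1) * (2 * m + 5) = (m + 1) * (2 * c) := by
            have : (m + 1) * (2 * m + 5) = 2 * m ^ 2 + 7 * m + 5 := by ring
            rw [this, hc]
            ring
          have h5 := Nat.eq_of_mul_eq_mul_left (by omega) h4
          omega
    obtain ⟨h₀, hh₀, hh₀N⟩ := SetLike.not_le_iff_exists.1 hKN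
    have h1 : SS N o (h₀ • B) = sgn N h₀ * SS N o B := SS_smul N hN hfree h₀ B
    have h2 : h₀ • B = B := hh₀
    have h3 : sgn N h₀ = -1 := by
      unfold sgn
      rw [if_neg hh₀N]
    rw [h2, h3] at h1
    linarith
  -- full orbits
  have horb : ∀ B ∈ blocks, SS N o B ≠ 0 → ∃ T : Finset (Finset V), T ⊆ blocks ∧ T.card = n ∧
      B ∈ T ∧ (∀ C ∈ T, SS N o C ^ 2 = SS N o B ^ 2) ∧ (∀ C ∈ T, ∀ g : G, g • C ∈ T) ∧
      ∀ C ∈ T, ∃ g : G, g • C = B := by
    intro B hB hS
    have hst : MulAction.stabilizer G B = ⊥ := by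
      by_contra hcon
      exact hS (hstab B hB hcon)
    refine ⟨Finset.univ.image fun g : G => g • B, ?_, ?_, ?_, ?_, ?_, ?_⟩
    · intro C hC
      obtain ⟨g, _, rfl⟩ := Finset.mem_image.1 hC
      exact haut g B hB
    · rw [Finset.card_image_of_injective, Finset.card_univ, hn, Nat.card_eq_fintype_card]
      intro g g' hgg
      have h1 : g'⁻¹ * g ∈ MulAction.stabilizer G B := by
        rw [MulAction.mem_stabilizer_iff, mul_smul]
        have h2 : g • B = g' • B := hgg
        rw [h2, inv_smul_smul]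
      rw [hst, Subgroup.mem_bot] at h1
      exact (inv_mul_eq_one.1 h1).symm
    · exact Finset.mem_image.2 ⟨1, Finset.mem_univ _, one_smul _ _⟩
    · intro C hC
      obtain ⟨g, _, rfl⟩ := Finset.mem_image.1 hC
      rw [SS_smul N hN hfree, mul_pow, sgn_sq, one_mul]
    · intro C hC g
      obtain ⟨g', _, rfl⟩ := Finset.mem_image.1 hC
      exact Finset.mem_image.2 ⟨g * g', Finset.mem_univ _, mul_smul _ _ _⟩
    · intro C hC
      obtain ⟨g, _, rfl⟩ := Finset.mem_image.1 hC
      exact ⟨g⁻¹, inv_smul_smul _ _⟩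
  have hpos : (0 : ℤ) < 2 * ((m + 2 : ℕ) : ℤ) * n := by positivity
  obtain ⟨B₁, hB₁, hS₁⟩ : ∃ B ∈ blocks, SS N o B ≠ 0 := by
    by_contra hcon
    push Not at hcon
    rw [← htot, Finset.sum_eq_zero fun B hB => by rw [hcon B hB]; norm_num] at hpos
    exact lt_irrefl _ hpos
  obtain ⟨T₁, hT₁, hT₁c, hBT₁, hT₁S, hT₁g, -⟩ := horb B₁ hB₁ hS₁
  have hsplit₁ : ∑ B ∈ blocks, SS N o B ^ 2 =
      n * SS N o B₁ ^ 2 + ∑ B ∈ blocks \ T₁, SS N o B ^ 2 := by
    rw [← Finset.sum_sdiff hT₁, add_comm, Finset.sum_congr rfl hT₁S, Finset.sum_const, hT₁c,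
      nsmul_eq_mul]
  have hnZ : (n : ℤ) ≠ 0 := by exact_mod_cast hn0.ne'
  by_cases hrest : ∀ B ∈ blocks \ T₁, SS N o B = 0
  · refine ⟨(SS N o B₁).natAbs, 0, ?_⟩
    have h1 : ∑ B ∈ blocks \ T₁, SS N o B ^ 2 = 0 :=
      Finset.sum_eq_zero fun B hB => by rw [hrest B hB]; norm_num
    rw [hsplit₁, h1, add_zero] at htot
    have h2 : (n : ℤ) * SS N o B₁ ^ 2 = n * (2 * ((m + 2 : ℕ) : ℤ)) := by rw [htot]; ring
    have h3 := mul_left_cancel₀ hnZ h2
    have h4 : ((2 * (m + 2) : ℕ) : ℤ) = (((SS N o B₁).natAbs ^ 2 + 0 ^ 2 : ℕ) : ℤ) := by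
      push_cast
      rw [sq_abs, h3]
      push_cast
      ring
    exact_mod_cast h4
  · push Not at hrest
    obtain ⟨B₂, hB₂, hS₂⟩ := hrest
    rw [Finset.mem_sdiff] at hB₂
    obtain ⟨T₂, hT₂, hT₂c, hBT₂, hT₂S, hT₂g, hT₂b⟩ := horb B₂ hB₂.1 hS₂
    have hT₂' : T₂ ⊆ blocks \ T₁ := by
      intro C hC
      refine Finset.mem_sdiff.2 ⟨hT₂ hC, fun hC1 => hB₂.2 ?_⟩
      obtain ⟨g, hg⟩ := hT₂b C hC
      rw [← hg]
      exact hT₁g C hC1 g
    have hc1 : (blocks \ T₁).card + n = blocks.card := by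
      rw [← hT₁c]
      exact Finset.card_sdiff_add_card_eq_card hT₁
    have hc2 : ((blocks \ T₁) \ T₂).card + n = (blocks \ T₁).card := by
      rw [← hT₂c]
      exact Finset.card_sdiff_add_card_eq_card hT₂'
    have hrest2 : ∀ B ∈ (blocks \ T₁) \ T₂, SS N o B = 0 := by
      intro B hB
      by_contra hS
      rw [Finset.mem_sdiff, Finset.mem_sdiff] at hB
      obtain ⟨T₃, hT₃, hT₃c, hBT₃, hT₃S, hT₃g, hT₃b⟩ := horb B hB.1.1 hS
      have hT₃' : T₃ ⊆ (blocks \ T₁) \ T₂ := by
        intro C hC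
        obtain ⟨g, hg⟩ := hT₃b C hC
        refine Finset.mem_sdiff.2 ⟨Finset.mem_sdiff.2 ⟨hT₃ hC, fun hC1 => hB.1.2 ?_⟩,
          fun hC1 => hB.2 ?_⟩
        · rw [← hg]
          exact hT₁g C hC1 g
        · rw [← hg]
          exact hT₂g C hC1 g
      have := Finset.card_le_card hT₃'
      omega
    have hsplit₂ : ∑ B ∈ blocks \ T₁, SS N o B ^ 2 = n * SS N o B₂ ^ 2 := by
      rw [← Finset.sum_sdiff hT₂', Finset.sum_eq_zero (s := (blocks \ T₁) \ T₂)
        fun B hB => by rw [hrest2 B hB]; norm_num, zero_add, Finset.sum_congr rfl hT₂S,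
        Finset.sum_const, hT₂c, nsmul_eq_mul]
    refine ⟨(SS N o B₁).natAbs, (SS N o B₂).natAbs, ?_⟩
    rw [hsplit₁, hsplit₂] at htot
    have h2 : (n : ℤ) * (SS N o B₁ ^ 2 + SS N o B₂ ^ 2) = n * (2 * ((m + 2 : ℕ) : ℤ)) := by
      rw [mul_add, htot]
      ring
    have h3 := mul_left_cancel₀ hnZ h2
    have h4 : ((2 * (m + 2) : ℕ) : ℤ) =
        (((SS N o B₁).natAbs ^ 2 + (SS N o B₂).natAbs ^ 2 : ℕ) : ℤ) := by
      push_cast
      rw [sq_abs, sq_abs, h3]
      push_cast
      ring
    exact_mod_cast h4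

end Pool.Agent.Lib.MPde2f37
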