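import Pool.Agent.Lib.MP_de2f37_co.Reg

/-!
Problem MP_de2f37_co: 1-rotational Steiner systems `S(2, k, k(2k - 1))` over arbitrary groups with a subgroup of
index 2.
-/

set_option autoImplicit false

namespace Pool.Agent.Lib.MPde2f37

open Finset Pointwise

variable {k : ℕ} {V : Type} [Fintype V] [DecidableEq V] {blocks : Finset (Finset V)}
variable {G : Type} [Group G] [MulAction G V]

/-- the main count, the block sums of the blocks with nontrivial stabiliser being given -/
theorem core (hk : 2 ≤ k) (hV : Fintype.card V = k * (2 * k - 1)) (hD : Steiner k blocks)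
    (haut : ∀ g : G, ∀ B ∈ blocks, g • B ∈ blocks) (o : V)
    (hfree : Function.Injective fun g : G => g • o)
    (hmiss : {x : V | ∀ g : G, g • o ≠ x}.Subsingleton)
    (N : Subgroup G) (hN : N.index = 2)
    (hstab : ∀ B ∈ blocks, MulAction.stabilizer G B ≠ ⊥ → SS N o B = 0) : ∃ a b : ℕ, 2 * k = a ^ 2 + b ^ 2 := by
  classical
  have hfin : Finite G := Finite.of_injective _ hfree
  have : Fintype G := Fintype.ofFinite G
  set n := Nat.card G with hn
  have hn0 : 0 < n := Nat.card_pos
  -- the orbit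
  set O : Finset V := Finset.univ.image fun g : G => g • o with hO
  have hOcard : O.card = n := by
    rw [hO, Finset.card_image_of_injective _ hfree, Finset.card_univ, hn, Nat.card_eq_fintype_card]
  have hOmem : ∀ x, x ∈ O ↔ ∃ g : G, g • o = x := by
    intro x
    simp [hO]
  have hcompl : (Finset.univ \ O).card ≤ 1 := by
    rw [Finset.card_le_one]
    intro x hx y hy
    refine hmiss (fun g hg => ?_) fun g hg => ?_
    · exact (Finset.mem_sdiff.1 hx).2 ((hOmem x).2 ⟨g, hg⟩)
    · exact (Finset.mem_sdiff.1 hy).2 ((hOmem y).2 ⟨g, hg⟩)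
  have hcv : n + (Finset.univ \ O).card = k * (2 * k - 1) := by
    rw [← hV, ← Finset.card_univ, ← hOcard, add_comm, Finset.card_sdiff_add_card_eq_card]
    exact Finset.subset_univ _
  -- numbers
  obtain ⟨m, rfl⟩ : ∃ m, k = m + 2 := ⟨k - 2, by omega⟩
  have hkv : (m + 2) * (2 * (m + 2) - 1) = 2 * m ^ 2 + 7 * m + 6 := by
    have : 2 * (m + 2) - 1 = 2 * m + 3 := by omega
    rw [this]
    ring
  have hr : ∀ x : V, (blocks.filter fun B => x ∈ B).card = 2 * m + 5 := by
    intro x
    have h1 := hD.repl x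
    rw [hV, hkv] at h1
    have h2 : m + 2 - 1 = m + 1 := by omega
    rw [h2] at h1
    have h3 : 2 * m ^ 2 + 7 * m + 6 - 1 = (2 * m + 5) * (m + 1) := by
      have : (2 * m + 5) * (m + 1) = 2 * m ^ 2 + 7 * m + 5 := by ring
      omega
    rw [h3] at h1
    exact Nat.eq_of_mul_eq_mul_right (by omega) h1
  have hb : blocks.card = (2 * m + 3) * (2 * m + 5) := by
    have h1 := hD.count _ hr
    rw [hV] at h1
    have : 2 * (m + 2) - 1 = 2 * m + 3 := by omega
    rw [this] at h1
    refine Nat.eq_of_mul_eq_mul_right (show 0 < m + 2 by omega) ?_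
    rw [h1]
    ring
  have hdvd : 2 ∣ n := by
    rw [← hN]
    exact Subgroup.index_dvd_card N
  have hn2 : n = 2 * m ^ 2 + 7 * m + 6 ∨ (n = 2 * m ^ 2 + 7 * m + 5) := by
    rw [hkv] at hcv
    omega
  have h3n : blocks.card < 3 * n := by
    rw [hb]
    have e : (2 * m + 3) * (2 * m + 5) = 4 * m ^ 2 + 16 * m + 15 := by ring
    rw [e]
    rcases hn2 with h | h
    · rw [h]
      nlinarith
    · rw [h]
      rcases Nat.eq_zero_or_pos m with h0 | h0
      · subst h0
        rw [h] at hdvd
        norm_num at hdvd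
      · nlinarith
  -- the character
  obtain ⟨g₀, hg₀⟩ : ∃ g₀ : G, g₀ ∉ N := by
    by_contra hcon
    push Not at hcon
    have : N = ⊤ := by
      ext g
      simp [hcon g]
    rw [this] at hN
    simp at hN
  have hsg : sgn N g₀ = -1 := by
    unfold sgn
    rw [if_neg hg₀]
  have hsum0 : ∑ x, ff N o x = 0 := by
    have h1 : ∑ x, ff N o x = ∑ x, ff N o (g₀ • x) :=
      (Equiv.sum_comp (MulAction.toPerm g₀) (ff N o)).symm
    have h2 : ∑ x, ff N o (g₀ • x) = -∑ x, ff N o x := by
      rw [← Finset.sum_neg_distrib]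
      refine Finset.sum_congr rfl fun x _ => ?_
      rw [ff_smul N hN hfree, hsg]
      ring
    linarith
  have hsum2 : ∑ x, ff N o x ^ 2 = n := by
    have h1 : ∑ x, ff N o x ^ 2 = ∑ x ∈ O, ff N o x ^ 2 := by
      symm
      refine Finset.sum_subset (Finset.subset_univ _) fun x _ hx => ?_
      rw [ff_out N (fun h => hx ((hOmem x).2 h))]
      norm_num
    rw [h1, ← hOcard, Finset.sum_congr rfl (g := fun _ => (1 : ℤ))]
    · simp
    · intro x hx
      obtain ⟨g, rfl⟩ := (hOmem x).1 hx
      rw [ff_orb N hfree, sgn_sq]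
  have htot : ∑ B ∈ blocks, SS N o B ^ 2 = 2 * ((m + 2 : ℕ) : ℤ) * n := by
    have h1 := hD.square _ hr (ff N o)
    rw [hsum0, hsum2] at h1
    unfold SS
    rw [h1]
    push_cast
    ring
  -- full orbits
  have horb : ∀ B ∈ blocks, SS N o B ≠ 0 → ∃ T : Finset (Finset V), T ⊆ blocks ∧ T.card = n ∧
      B ∈ T ∧ (∀ C ∈ T, SS N o C ^ 2 = SS N o B ^ 2) ∧ (∀ C ∈ T, ∀ g : G, g • C ∈ T) ∧
      ∀ C ∈ T, ∃ g : G, g • C = B := by
    intro B hB hS
    have hst : MulAction.stabilizer G B = ⊥ := by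
      by_contra hcon
      exact hS (hstab B hB hcon)
    refine ⟨Finset.univ.image fun g : G => g • B, ?_, ?_, ?_, ?_, ?_, ?_⟩
    · intro C hC
      obtain ⟨g, _, rfl⟩ := Finset.mem_image.1 hC
      exact haut g B hB
    · rw [Finset.card_image_of_injective, Finset.card_univ, hn, Nat.card_eq_fintype_card]
      intro g g' hgg
      have h1 : g'⁻¹ * g ∈ MulAction.stabilizer G B := by
        rw [MulAction.mem_stabilizer_iff, mul_smul]
        have h2 : g • B = g' • B := hgg
        rw [h2, inv_smul_smul]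
      rw [hst, Subgroup.mem_bot] at h1
      exact (inv_mul_eq_one.1 h1).symm
    · exact Finset.mem_image.2 ⟨1, Finset.mem_univ _, one_smul _ _⟩
    · intro C hC
      obtain ⟨g, _, rfl⟩ := Finset.mem_image.1 hC
      rw [SS_smul N hN hfree, mul_pow, sgn_sq, one_mul]
    · intro C hC g
      obtain ⟨g', _, rfl⟩ := Finset.mem_image.1 hC
      exact Finset.mem_image.2 ⟨g * g', Finset.mem_univ _, mul_smul _ _ _⟩
    · intro C hC
      obtain ⟨g, _, rfl⟩ := Finset.mem_image.1 hC
      exact ⟨g⁻¹, inv_smul_smul _ _⟩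
  have hpos : (0 : ℤ) < 2 * ((m + 2 : ℕ) : ℤ) * n := by positivity
  obtain ⟨B₁, hB₁, hS₁⟩ : ∃ B ∈ blocks, SS N o B ≠ 0 := by
    by_contra hcon
    push Not at hcon
    rw [← htot, Finset.sum_eq_zero fun B hB => by rw [hcon B hB]; norm_num] at hpos
    exact lt_irrefl _ hpos
  obtain ⟨T₁, hT₁, hT₁c, hBT₁, hT₁S, hT₁g, -⟩ := horb B₁ hB₁ hS₁
  have hsplit₁ : ∑ B ∈ blocks, SS N o B ^ 2 =
      n * SS N o B₁ ^ 2 + ∑ B ∈ blocks \ T₁, SS N o B ^ 2 := by
    rw [← Finset.sum_sdiff hT₁, add_comm, Finset.sum_congr rfl hT₁S, Finset.sum_const, hT₁c,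
      nsmul_eq_mul]
  have hnZ : (n : ℤ) ≠ 0 := by exact_mod_cast hn0.ne'
  by_cases hrest : ∀ B ∈ blocks \ T₁, SS N o B = 0
  · refine ⟨(SS N o B₁).natAbs, 0, ?_⟩
    have h1 : ∑ B ∈ blocks \ T₁, SS N o B ^ 2 = 0 :=
      Finset.sum_eq_zero fun B hB => by rw [hrest B hB]; norm_num
    rw [hsplit₁, h1, add_zero] at htot
    have h2 : (n : ℤ) * SS N o B₁ ^ 2 = n * (2 * ((m + 2 : ℕ) : ℤ)) := by rw [htot]; ring
    have h3 := mul_left_cancel₀ hnZ h2
    have h4 : ((2 * (m + 2) : ℕ) : ℤ) = (((SS N o B₁).natAbs ^ 2 + 0 ^ 2 : ℕ) : ℤ) := by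
      push_cast
      rw [sq_abs, h3]
      push_cast
      ring
    exact_mod_cast h4
  · push Not at hrest
    obtain ⟨B₂, hB₂, hS₂⟩ := hrest
    rw [Finset.mem_sdiff] at hB₂
    obtain ⟨T₂, hT₂, hT₂c, hBT₂, hT₂S, hT₂g, hT₂b⟩ := horb B₂ hB₂.1 hS₂
    have hT₂' : T₂ ⊆ blocks \ T₁ := by
      intro C hC
      refine Finset.mem_sdiff.2 ⟨hT₂ hC, fun hC1 => hB₂.2 ?_⟩
      obtain ⟨g, hg⟩ := hT₂b C hC
      rw [← hg]
      exact hT₁g C hC1 g
    have hc1 : (blocks \ T₁).card + n = blocks.card := by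
      rw [← hT₁c]
      exact Finset.card_sdiff_add_card_eq_card hT₁
    have hc2 : ((blocks \ T₁) \ T₂).card + n = (blocks \ T₁).card := by
      rw [← hT₂c]
      exact Finset.card_sdiff_add_card_eq_card hT₂'
    have hrest2 : ∀ B ∈ (blocks \ T₁) \ T₂, SS N o B = 0 := by
      intro B hB
      by_contra hS
      rw [Finset.mem_sdiff, Finset.mem_sdiff] at hB
      obtain ⟨T₃, hT₃, hT₃c, hBT₃, hT₃S, hT₃g, hT₃b⟩ := horb B hB.1.1 hS
      have hT₃' : T₃ ⊆ (blocks \ T₁) \ T₂ := by
        intro C hC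
        obtain ⟨g, hg⟩ := hT₃b C hC
        refine Finset.mem_sdiff.2 ⟨Finset.mem_sdiff.2 ⟨hT₃ hC, fun hC1 => hB.1.2 ?_⟩,
          fun hC1 => hB.2 ?_⟩
        · rw [← hg]
          exact hT₁g C hC1 g
        · rw [← hg]
          exact hT₂g C hC1 g
      have := Finset.card_le_card hT₃'
      omega
    have hsplit₂ : ∑ B ∈ blocks \ T₁, SS N o B ^ 2 = n * SS N o B₂ ^ 2 := by
      rw [← Finset.sum_sdiff hT₂', Finset.sum_eq_zero (s := (blocks \ T₁) \ T₂)
        fun B hB => by rw [hrest2 B hB]; norm_num, zero_add, Finset.sum_congr rfl hT₂S,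
        Finset.sum_const, hT₂c, nsmul_eq_mul]
    refine ⟨(SS N o B₁).natAbs, (SS N o B₂).natAbs, ?_⟩
    rw [hsplit₁, hsplit₂] at htot
    have h2 : (n : ℤ) * (SS N o B₁ ^ 2 + SS N o B₂ ^ 2) = n * (2 * ((m + 2 : ℕ) : ℤ)) := by
      rw [mul_add, htot]
      ring
    have h3 := mul_left_cancel₀ hnZ h2
    have h4 : ((2 * (m + 2) : ℕ) : ℤ) =
        (((SS N o B₁).natAbs ^ 2 + (SS N o B₂).natAbs ^ 2 : ℕ) : ℤ) := by
      push_cast
      rw [sq_abs, sq_abs, h3]
      push_cast
      ring
    exact_mod_cast h4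

/-- one missing point: the stabiliser of a block is trivial, or the block sum vanishes -/
theorem stab_one (hk : 2 ≤ k) (hV : Fintype.card V = k * (2 * k - 1)) (hD : Steiner k blocks)
    (haut : ∀ g : G, ∀ B ∈ blocks, g • B ∈ blocks) (o : V)
    (hfree : Function.Injective fun g : G => g • o) (z : V) (hz : ∀ g : G, g • o ≠ z)
    (hmiss : ∀ x : V, x ≠ z → ∃ g : G, g • o = x)
    (N : Subgroup G) (hN : N.index = 2) (B : Finset V) (hB : B ∈ blocks)
    (hK : MulAction.stabilizer G B ≠ ⊥) : SS N o B = 0 := by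
  classical
  have hfin : Finite G := Finite.of_injective _ hfree
  have : Fintype G := Fintype.ofFinite G
  -- the missing point is fixed
  have hzfix : ∀ g : G, g • z = z := by
    intro g
    by_contra hne
    obtain ⟨h, hh⟩ := hmiss _ hne
    apply hz (g⁻¹ * h)
    rw [mul_smul, hh, inv_smul_smul]
  -- the action is free on the other points
  have hfree' : ∀ (g : G) (x : V), x ≠ z → g • x = x → g = 1 := by
    intro g x hx hg
    obtain ⟨h, rfl⟩ := hmiss x hx
    have h1 : (g * h) • o = h • o := by rw [mul_smul]; exact hg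
    have h2 : g * h = h := hfree h1
    exact mul_eq_right.mp h2
  set K := MulAction.stabilizer G B with hKdef
  have hKm : ∀ {g : G}, g ∈ K → ∀ x ∈ B, g • x ∈ B := by
    intro g hg x hx
    have h1 : g • B = B := hg
    rw [← h1]
    exact Finset.smul_mem_smul_finset hx
  have hn : Nat.card G + 1 = k * (2 * k - 1) := by
    have h1 : (Finset.univ.image fun g : G => g • o) = Finset.univ.erase z := by
      ext x
      rw [Finset.mem_image, Finset.mem_erase]
      constructor
      · rintro ⟨g, _, rfl⟩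
        exact ⟨hz g, Finset.mem_univ _⟩
      · rintro ⟨hx, _⟩
        obtain ⟨g, hg⟩ := hmiss x hx
        exact ⟨g, Finset.mem_univ _, hg⟩
    have h2 := congrArg Finset.card h1
    rw [Finset.card_image_of_injective _ hfree, Finset.card_univ,
      Finset.card_erase_of_mem (Finset.mem_univ _), Finset.card_univ, hV] at h2
    rw [Nat.card_eq_fintype_card, h2]
    have h3 : 0 < k * (2 * k - 1) := by
      have : 0 < 2 * k - 1 := by omega
      positivity
    omega
  by_cases hzB : z ∈ B
  · -- the stabiliser has odd index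
    have horb : (MulAction.orbit G B).ncard = 2 * k + 1 := by
      have h1 : MulAction.orbit G B = ↑(blocks.filter fun C => z ∈ C) := by
        ext C
        rw [Finset.coe_filter, Set.mem_ofPred_eq]
        constructor
        · rintro ⟨g, rfl⟩
          refine ⟨haut g B hB, ?_⟩
          have h2 := Finset.smul_mem_smul_finset (a := g) hzB
          rw [hzfix g] at h2
          exact h2
        · rintro ⟨hC, hzC⟩
          obtain ⟨x, hx, hxz⟩ : ∃ x ∈ B, x ≠ z := by
            have h1 : 1 < B.card := by rw [hD.card B hB]; omega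
            exact Finset.exists_mem_ne h1 z
          obtain ⟨y, hy, hyz⟩ : ∃ y ∈ C, y ≠ z := by
            have h1 : 1 < C.card := by rw [hD.card C hC]; omega
            exact Finset.exists_mem_ne h1 z
          obtain ⟨g, hg⟩ := hmiss x hxz
          obtain ⟨h, hh⟩ := hmiss y hyz
          have e : (h * g⁻¹) • x = y := by
            rw [← hg, mul_smul, inv_smul_smul, hh]
          refine ⟨h * g⁻¹, ?_⟩
          refine (hD.pair z y (Ne.symm hyz)).unique ⟨haut _ B hB, ?_, ?_⟩ ⟨hC, hzC, hy⟩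
          · have h2 := Finset.smul_mem_smul_finset (a := h * g⁻¹) hzB
            rw [hzfix] at h2
            exact h2
          · have h2 := Finset.smul_mem_smul_finset (a := h * g⁻¹) hx
            rw [e] at h2
            exact h2
      rw [h1, Set.ncard_coe_finset]
      have h3 := hD.repl z
      obtain ⟨m, rfl⟩ : ∃ m, k = m + 2 := ⟨k - 2, by omega⟩
      rw [hV] at h3
      have h4 : m + 2 - 1 = m + 1 := by omega
      have h5 : 2 * (m + 2) - 1 = 2 * m + 3 := by omega
      rw [h4, h5] at h3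
      have h6 : (m + 2) * (2 * m + 3) - 1 = (2 * (m + 2) + 1) * (m + 1) := by
        have : (m + 2) * (2 * m + 3) = (2 * (m + 2) + 1) * (m + 1) + 1 := by ring
        omega
      rw [h6] at h3
      exact Nat.eq_of_mul_eq_mul_right (by omega) h3
    have hidx : K.index = 2 * k + 1 := by
      rw [hKdef, MulAction.index_stabilizer, horb]
    have hKN : ¬ K ≤ N := by
      intro hle
      have h1 := Subgroup.index_dvd_of_le hle
      rw [hN, hidx] at h1
      omega
    obtain ⟨h₀, hh₀, hh₀N⟩ := SetLike.not_le_iff_exists.1 hKN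
    have h1 : SS N o (h₀ • B) = sgn N h₀ * SS N o B := SS_smul N hN hfree h₀ B
    have h2 : h₀ • B = B := hh₀
    have h3 : sgn N h₀ = -1 := by
      unfold sgn
      rw [if_neg hh₀N]
    rw [h2, h3] at h1
    linarith
  · -- the stabiliser is trivial
    exfalso
    apply hK
    have hdiv : Nat.card K ∣ k := by
      let act : MulAction K B :=
        { smul := fun g x => ⟨(g : G) • (x : V), hKm g.2 _ x.2⟩
          one_smul := fun x => Subtype.ext (one_smul G (x : V))
          mul_smul := fun g h x => Subtype.ext (mul_smul (g : G) (h : G) (x : V)) }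
      have hbot : ∀ x : B, MulAction.stabilizer K x = ⊥ := by
        intro x
        rw [eq_bot_iff]
        intro g hg
        rw [Subgroup.mem_bot]
        have h1 : (g : G) • (x : V) = x := congrArg Subtype.val hg
        have h2 : (x : V) ≠ z := fun h => hzB (by rw [← h]; exact x.2)
        exact Subtype.ext (hfree' _ _ h2 h1)
      have h3 := Nat.card_congr (MulAction.selfEquivOrbitsQuotientProd (X := B) hbot)
      rw [Nat.card_prod, Nat.card_eq_fintype_card (α := B), Fintype.card_coe, hD.card B hB] at h3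
      exact ⟨_, by rw [h3]; ring⟩
    have hdiv2 : Nat.card K ∣ Nat.card G := Subgroup.card_subgroup_dvd_card K
    have hdiv3 : Nat.card K ∣ Nat.card G + 1 := by
      rw [hn]
      exact hdiv.mul_right _
    have h1 : Nat.card K ∣ 1 := (Nat.dvd_add_right hdiv2).mp hdiv3
    exact Subgroup.card_eq_one.mp (Nat.dvd_one.mp h1)

/-- the condition, with normality only needed for regular actions -/
theorem main2 (hk : 2 ≤ k) (hV : Fintype.card V = k * (2 * k - 1)) (hD : Steiner k blocks)
    (haut : ∀ g : G, ∀ B ∈ blocks, g • B ∈ blocks) (o : V)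
    (hfree : Function.Injective fun g : G => g • o)
    (hmiss : {x : V | ∀ g : G, g • o ≠ x}.Subsingleton)
    (hnorm : (∀ x : V, ∃ g : G, g • o = x) →
      ∀ s : G, (orderOf s).Prime → ∀ h : G, h * s * h⁻¹ ∈ Subgroup.zpowers s)
    (N : Subgroup G) (hN : N.index = 2) : ∃ a b : ℕ, 2 * k = a ^ 2 + b ^ 2 := by
  by_cases h : ∀ x : V, ∃ g : G, g • o = x
  · exact main hk hV hD haut o hfree hmiss (hnorm h) N hN
  · push Not at h
    obtain ⟨z, hz⟩ := h
    refine core hk hV hD haut o hfree hmiss N hN fun B hB hK =>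
      stab_one hk hV hD haut o hfree z hz (fun x hx => ?_) N hN B hB hK
    by_contra hcon
    push Not at hcon
    exact hx (hmiss hcon hz)

end Pool.Agent.Lib.MPde2f37
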